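import Mathlib
import Pool.Agent.H95.VG.Targets1
import Pool.Agent.H95.VG.Targets5

/-!
# VG module CUI: local cutoffs of small energy near `I`
-/

open MeasureTheory Set Filter Topology
open scoped ENNReal NNReal ContDiff ComplexConjugate
open Pool.Agent.H95.VG

namespace Pool.Agent.H32.VG.Cui

/-! ## The cutoffs in one variable -/

theorem deriv_S {x : ℝ} (hx : deriv Real.smoothTransition x ≠ 0) : 0 ≤ x ∧ x ≤ 1 := by
  constructor
  · by_contra h
    rw [not_le] at h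
    apply hx
    have : Real.smoothTransition =ᶠ[𝓝 x] fun _ => (0 : ℝ) := by
      filter_upwards [Iio_mem_nhds h] with y hy
      exact Real.smoothTransition.zero_of_nonpos (le_of_lt hy)
    rw [this.deriv_eq, deriv_const]
  · by_contra h
    rw [not_le] at h
    apply hx
    have : Real.smoothTransition =ᶠ[𝓝 x] fun _ => (1 : ℝ) := by
      filter_upwards [Ioi_mem_nhds h] with y hy
      exact Real.smoothTransition.one_of_one_le (le_of_lt hy)
    rw [this.deriv_eq, deriv_const]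

theorem bound_S : ∃ C : ℝ, 0 ≤ C ∧ ∀ x, |deriv Real.smoothTransition x| ≤ C := by
  have hc : Continuous (deriv Real.smoothTransition) :=
    (Real.smoothTransition.contDiff (n := 1)).continuous_deriv le_rfl
  obtain ⟨C, hC⟩ := (isCompact_Icc (a := (0 : ℝ)) (b := 1)).exists_bound_of_continuousOn
    hc.continuousOn
  refine ⟨max C 0, le_max_right _ _, fun x => ?_⟩
  by_cases hx : deriv Real.smoothTransition x = 0
  · rw [hx, abs_zero]; exact le_max_right _ _
  · exact (hC x (deriv_S hx)).trans (le_max_left _ _)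

/-- the cutoff functions of one variable -/
noncomputable def th (c₀ : ℝ) (j : ℕ) (s : ℝ) : ℝ :=
  (∑ i ∈ Finset.range (j + 1), Real.smoothTransition ((s - c₀) / 4 ^ (i + 1) + 2)) / (j + 1)

theorem th_nonneg (c₀ : ℝ) (j : ℕ) (s : ℝ) : 0 ≤ th c₀ j s := by
  unfold th
  exact div_nonneg (Finset.sum_nonneg fun i _ => Real.smoothTransition.nonneg _) (by positivity)

theorem th_le_one (c₀ : ℝ) (j : ℕ) (s : ℝ) : th c₀ j s ≤ 1 := by
  unfold th
  rw [div_le_one (by positivity)]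
  calc _ ≤ ∑ _i ∈ Finset.range (j + 1), (1 : ℝ) :=
        Finset.sum_le_sum fun i _ => Real.smoothTransition.le_one _
    _ = (j : ℝ) + 1 := by simp

theorem th_contDiff (c₀ : ℝ) (j : ℕ) : ContDiff ℝ ∞ (th c₀ j) := by
  unfold th
  refine ContDiff.div_const ?_ _
  refine ContDiff.sum fun i _ => ?_
  refine Real.smoothTransition.contDiff.comp ?_
  exact ((contDiff_id.sub contDiff_const).div_const _).add contDiff_const

theorem th_zero (c₀ : ℝ) (j : ℕ) {s : ℝ} (hs : s - c₀ ≤ -2 * 4 ^ (j + 1)) : th c₀ j s = 0 := by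
  unfold th
  rw [Finset.sum_eq_zero, zero_div]
  intro i hi
  apply Real.smoothTransition.zero_of_nonpos
  have hij : (4 : ℝ) ^ (i + 1) ≤ 4 ^ (j + 1) :=
    pow_le_pow_right₀ (by norm_num) (by have := Finset.mem_range.1 hi; omega)
  have h4 : (0 : ℝ) < 4 ^ (i + 1) := by positivity
  have : (s - c₀) / 4 ^ (i + 1) ≤ -2 := by
    rw [div_le_iff₀ h4]; linarith
  linarith

theorem th_tendsto (c₀ s : ℝ) : Tendsto (fun j => th c₀ j s) atTop (𝓝 1) := by
  have h1 : Tendsto (fun i : ℕ => Real.smoothTransition ((s - c₀) / 4 ^ (i + 1) + 2)) atTop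
      (𝓝 1) := by
    have h2 : Tendsto (fun i : ℕ => (s - c₀) / 4 ^ (i + 1) + 2) atTop (𝓝 (0 + 2)) := by
      refine Tendsto.add ?_ tendsto_const_nhds
      have h3 : Tendsto (fun i : ℕ => ((4 : ℝ) ^ (i + 1))) atTop atTop :=
        (tendsto_pow_atTop_atTop_of_one_lt (by norm_num)).comp (tendsto_add_atTop_nat 1)
      exact tendsto_const_nhds.div_atTop h3
    rw [zero_add] at h2
    have h4 : ∀ᶠ i : ℕ in atTop, (1 : ℝ) < (s - c₀) / 4 ^ (i + 1) + 2 :=
      h2.eventually_const_lt (by norm_num)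
    refine Tendsto.congr' ?_ tendsto_const_nhds
    filter_upwards [h4] with i hi
    exact (Real.smoothTransition.one_of_one_le hi.le).symm
  have h5 := (h1.cesaro).comp (tendsto_add_atTop_nat 1)
  refine h5.congr fun j => ?_
  simp only [Function.comp, th]
  push_cast
  rw [div_eq_inv_mul]

theorem th_deriv (c₀ : ℝ) (j : ℕ) (s : ℝ) : deriv (th c₀ j) s =
    (∑ i ∈ Finset.range (j + 1),
      deriv Real.smoothTransition ((s - c₀) / 4 ^ (i + 1) + 2) * (1 / 4 ^ (i + 1))) / (j + 1) := by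
  have h : HasDerivAt (th c₀ j) ((∑ i ∈ Finset.range (j + 1),
      deriv Real.smoothTransition ((s - c₀) / 4 ^ (i + 1) + 2) * (1 / 4 ^ (i + 1))) / (j + 1)) s := by
    unfold th
    refine HasDerivAt.div_const ?_ _
    refine HasDerivAt.fun_sum fun i _ => ?_
    have h1 : HasDerivAt (fun s : ℝ => (s - c₀) / 4 ^ (i + 1) + 2) (1 / 4 ^ (i + 1)) s :=
      (((hasDerivAt_id s).sub_const c₀).div_const _).add_const 2
    have h2 : HasDerivAt Real.smoothTransition
        (deriv Real.smoothTransition ((s - c₀) / 4 ^ (i + 1) + 2)) ((s - c₀) / 4 ^ (i + 1) + 2) :=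
      ((Real.smoothTransition.contDiff (n := 1)).differentiable (by norm_num) _).hasDerivAt
    exact h2.comp s h1
  exact h.deriv

/-- the zone of the `i`-th term -/
def Zn (c₀ : ℝ) (i : ℕ) (s : ℝ) : Prop := -2 * 4 ^ (i + 1) ≤ s - c₀ ∧ s - c₀ ≤ -4 ^ (i + 1)

theorem term_zero (c₀ : ℝ) (i : ℕ) {s : ℝ} (h : ¬ Zn c₀ i s) :
    deriv Real.smoothTransition ((s - c₀) / 4 ^ (i + 1) + 2) = 0 := by
  by_contra hne
  obtain ⟨h1, h2⟩ := deriv_S hne
  have h4 : (0 : ℝ) < 4 ^ (i + 1) := by positivity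
  apply h
  constructor
  · have : -2 ≤ (s - c₀) / 4 ^ (i + 1) := by linarith
    rw [le_div_iff₀ h4] at this
    exact this
  · have : (s - c₀) / 4 ^ (i + 1) ≤ -1 := by linarith
    rw [div_le_iff₀ h4] at this
    linarith

theorem zone_unique (c₀ : ℝ) {i i' : ℕ} {s : ℝ} (h : Zn c₀ i s) (h' : Zn c₀ i' s) : i = i' := by
  by_contra hne
  have key : ∀ a b : ℕ, a < b → Zn c₀ a s → Zn c₀ b s → False := by
    intro a b hab ha hb
    have h1 : (4 : ℝ) ^ (a + 1 + 1) ≤ 4 ^ (b + 1) :=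
      pow_le_pow_right₀ (by norm_num) (by omega)
    have h2 : (4 : ℝ) ^ (a + 1 + 1) = 4 * 4 ^ (a + 1) := by ring
    have h4 : (0 : ℝ) < 4 ^ (a + 1) := by positivity
    have h5 := ha.1
    have h6 := hb.2
    linarith
  rcases lt_or_gt_of_ne hne with hl | hl
  · exact key i i' hl h h'
  · exact key i' i hl h' h

theorem th_deriv_zero (c₀ : ℝ) (j : ℕ) {s : ℝ} (h : ∀ i < j + 1, ¬ Zn c₀ i s) :
    deriv (th c₀ j) s = 0 := by
  rw [th_deriv, Finset.sum_eq_zero, zero_div]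
  intro i hi
  rw [term_zero c₀ i (h i (Finset.mem_range.1 hi)), zero_mul]

theorem th_deriv_le (c₀ : ℝ) (j i : ℕ) {s C : ℝ} (hC : ∀ x, |deriv Real.smoothTransition x| ≤ C)
    (h : Zn c₀ i s) : |deriv (th c₀ j) s| ≤ C / ((j + 1) * 4 ^ (i + 1)) := by
  have hC0 : 0 ≤ C := (abs_nonneg _).trans (hC 0)
  rw [th_deriv, abs_div, abs_of_pos (show (0 : ℝ) < (j : ℝ) + 1 by positivity)]
  by_cases hij : i ∈ Finset.range (j + 1)
  · rw [Finset.sum_eq_single_of_mem i hij (fun i' _ hne => by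
      rw [term_zero c₀ i' (fun h' => hne (zone_unique c₀ h' h)), zero_mul]), abs_mul,
      abs_of_pos (show (0 : ℝ) < 1 / 4 ^ (i + 1) by positivity)]
    calc _ ≤ C * (1 / 4 ^ (i + 1)) / (j + 1) := by
          gcongr
          exact hC _
      _ = C / ((j + 1) * 4 ^ (i + 1)) := by field_simp
  · rw [Finset.sum_eq_zero, abs_zero, zero_div]
    · positivity
    · intro i' hi'
      rw [term_zero c₀ i' (fun h' => hij (zone_unique c₀ h' h ▸ hi')), zero_mul]

variable {n : ℕ}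

theorem lint_biUnion_le {α : Type*} (T : Finset α) (s : α → Set (V n)) (h : V n → ℝ≥0∞) :
    ∫⁻ z in ⋃ y ∈ T, s y, h z ≤ ∑ y ∈ T, ∫⁻ z in s y, h z := by
  classical
  induction T using Finset.induction_on with
  | empty => simp
  | insert a T ha ih =>
    rw [Finset.set_biUnion_insert, Finset.sum_insert ha]
    exact (lintegral_union_le _ _ _).trans (add_le_add le_rfl ih)

theorem nsq_cont' {m : ℕ} : Continuous (nsq (n := m)) := by
  unfold nsq
  exact continuous_finsetSum _ fun i _ => ((continuous_apply i).norm.pow 2)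

theorem nsq_pos' {m : ℕ} {y : V m} (hy : y ≠ 0) : 0 < nsq y := by
  obtain ⟨i, hi⟩ := Function.ne_iff.1 hy
  unfold nsq
  refine Finset.sum_pos' (fun i _ => by positivity) ⟨i, Finset.mem_univ _, ?_⟩
  have : 0 < ‖y i‖ := norm_pos_iff.2 hi
  positivity

theorem nsq_zero' {m : ℕ} : nsq (0 : V m) = 0 := by
  simp [nsq]

theorem append_mem_ball {z z₀ y y₀ : V n} {ρ : ℝ} (hρ : 0 < ρ) (hz : dist z z₀ < ρ)
    (hy : dist y y₀ < ρ) : Fin.append z y ∈ Metric.ball (Fin.append z₀ y₀) ρ := by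
  rw [Metric.mem_ball, dist_pi_lt_iff hρ]
  intro b
  refine Fin.addCases (fun i => ?_) (fun i => ?_) b
  · rw [Fin.append_left, Fin.append_left]
    exact (dist_le_pi_dist z z₀ i).trans_lt hz
  · rw [Fin.append_right, Fin.append_right]
    exact (dist_le_pi_dist y y₀ i).trans_lt hy

theorem cui (hPRD : T_PRD) (hMOP : T_MOP) (hFBR : T_FBR) (hFVL : T_FVL) (hLGG : T_LGG)
    (hLCE : T_LCE) : T_CUI := by
  intro n X _ _ ι _ A f I D hn M z₀ hz₀
  classical
  obtain ⟨r₁, hr₁, hr₁D, m, g, hg, hgI⟩ := M.ian z₀ hz₀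
  obtain ⟨hDI, hI0, hUgo, _⟩ := hMOP n X ι A f I D M
  obtain ⟨hvs, _⟩ := hLGG n m (Metric.ball z₀ r₁) g Metric.isOpen_ball hg
  set r₂ : ℝ := r₁ / 2 with hr₂
  have hr₂0 : 0 < r₂ := by rw [hr₂]; linarith
  have hr₂1 : r₂ < r₁ := by rw [hr₂]; linarith
  set v : V n → ℝ := fun z => Real.log (nsq (g z)) / 2 with hv
  have hb21 : Metric.ball z₀ r₂ ⊆ Metric.ball z₀ r₁ := Metric.ball_subset_ball hr₂1.le
  obtain ⟨c₀, hc₀⟩ : ∃ c₀ : ℝ, ∀ z ∈ Metric.ball z₀ r₂ \ I, v z ≤ c₀ := by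
    have hcont : ContinuousOn (fun z => nsq (g z)) (Metric.closedBall z₀ r₂) :=
      nsq_cont'.comp_continuousOn (hg.continuousOn.mono (Metric.closedBall_subset_ball hr₂1))
    obtain ⟨C, hC⟩ := (isCompact_closedBall z₀ r₂).exists_bound_of_continuousOn hcont
    refine ⟨Real.log C / 2, fun z hz => ?_⟩
    have hg0 : g z ≠ 0 := fun h => hz.2 ((hgI z (hb21 hz.1)).2 h)
    have h1 := nsq_pos' hg0
    have h2 := (le_abs_self _).trans (hC z (Metric.ball_subset_closedBall hz.1))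
    simp only [hv]
    have := Real.log_le_log h1 h2
    linarith
  -- local estimates
  have hloc : ∀ a, ∃ R : ℝ, 0 < R ∧ ∃ C : ℝ, 0 ≤ C ∧ ∀ t : ℝ, 1 ≤ t → ∀ Φ k,
      ∫⁻ z in (Metric.ball z₀ R \ I) ∩ Cb A f a (5 / 2) ∩ {z | -2 * t ≤ v z - c₀},
        ENNReal.ofReal (ge v z (cf (mix Φ (FF A f a)) k z)) ≤ ENNReal.ofReal (C * t ^ 2) := by
    intro a
    have h1 : ∀ y₀ ∈ Metric.closedBall (0 : V n) (5 / 2), ∃ ρ : ℝ, 0 < ρ ∧ ∃ C : ℝ, 0 ≤ C ∧
        ∀ t : ℝ, 1 ≤ t → ∀ Φ k,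
        ∫⁻ z in Ug A f I D a (Fin.append z₀ y₀) ρ ∩ {z | -2 * t ≤ v z - c₀},
          ENNReal.ofReal (ge v z (cf (mix Φ (FF A f a)) k z)) ≤ ENNReal.ofReal (C * t ^ 2) := by
      intro y₀ hy₀
      obtain ⟨r, m', G, l, hL⟩ := M.loc a z₀ hz₀ y₀ hy₀
      obtain ⟨r', ε₀, δ₁, D₀, hF⟩ := hFBR n X ι A f I D hn M a _ r m' G l hL
      obtain ⟨ρ₁, hρ₁, hρ₁r, hfin⟩ := hFVL n X ι A f I D hn M a _ r m' G l hL r' ε₀ δ₁ D₀ hF
      set ρ : ℝ := min ρ₁ r₂ with hρdef
      have hρ0 : 0 < ρ := lt_min hρ₁ hr₂0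
      have hρ1 : ρ ≤ ρ₁ := min_le_left _ _
      have hρ2 : ρ ≤ r₂ := min_le_right _ _
      have hρ4 : ρ ≤ 1 / 4 := by
        have h2 := hF.pos.2.1
        have h3 := hL.rle
        linarith
      have hsub : Metric.ball z₀ ρ ⊆ Metric.ball z₀ r₁ :=
        (Metric.ball_subset_ball hρ2).trans hb21
      have hfin' : ∫⁻ z in Ug A f I D a (Fin.append z₀ y₀) ρ,
          ENNReal.ofReal (Dm (FF A f a) z) < ⊤ := by
        refine lt_of_le_of_lt (lintegral_mono_set ?_) hfin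
        rintro z ⟨h2, h3, h4⟩
        exact ⟨h2, h3, Metric.ball_subset_ball hρ1 h4⟩
      obtain ⟨C, hC⟩ := hLCE n X ι A f I D hn M a z₀ y₀ ρ (ρ / 2) m g c₀ (by linarith)
        (by linarith) hρ4 (hsub.trans hr₁D) hy₀ (hg.mono hsub) (fun z hz => hgI z (hsub hz))
        (fun z hz => hc₀ z ⟨Metric.ball_subset_ball hρ2 hz.1, hz.2⟩) hfin'
      refine ⟨ρ / 2, by linarith, max C 0, le_max_right _ _, fun t ht Φ k => ?_⟩
      refine (hC t ht Φ k).trans (ENNReal.ofReal_le_ofReal ?_)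
      gcongr
      exact le_max_left _ _
    choose! ρ hρ C hC0 hC using h1
    obtain ⟨T, hT1, hT2⟩ := (isCompact_closedBall (0 : V n) (5 / 2)).elim_nhds_subcover
      (fun y => Metric.ball y (ρ y)) (fun y hy => Metric.ball_mem_nhds y (hρ y hy))
    obtain ⟨R, hR0, hR⟩ : ∃ R : ℝ, 0 < R ∧ ∀ y ∈ T, R ≤ ρ y := by
      have h2 : ∀ᶠ R in 𝓝[>] (0 : ℝ), ∀ y ∈ T, R ≤ ρ y := by
        rw [Filter.eventually_all_finset]
        intro y hy
        filter_upwards [Ioc_mem_nhdsGT (hρ y (hT1 y hy))] with R hR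
        exact hR.2
      obtain ⟨R, h3, h4⟩ := (h2.and self_mem_nhdsWithin).exists
      exact ⟨R, h4, h3⟩
    set R' : ℝ := min R r₂ with hR'
    have hR'0 : 0 < R' := lt_min hR0 hr₂0
    refine ⟨R', hR'0, ∑ y ∈ T, C y, Finset.sum_nonneg fun y hy => hC0 y (hT1 y hy),
      fun t ht Φ k => ?_⟩
    have hsub : (Metric.ball z₀ R' \ I) ∩ Cb A f a (5 / 2) ∩ {z | -2 * t ≤ v z - c₀} ⊆
        ⋃ y ∈ T, (Ug A f I D a (Fin.append z₀ y) (ρ y) ∩ {z | -2 * t ≤ v z - c₀}) := by
      rintro z ⟨⟨⟨h1, h2⟩, h3, h4⟩, h5⟩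
      obtain ⟨y, hyT, hy⟩ := mem_iUnion₂.1 (hT2 h4)
      refine mem_iUnion₂.2 ⟨y, hyT, ⟨⟨?_, h2⟩, h3, ?_⟩, h5⟩
      · exact hr₁D (hb21 (Metric.ball_subset_ball (min_le_right _ _) h1))
      · refine append_mem_ball (hρ y (hT1 y hyT)) ?_ hy
        have h6 : dist z z₀ < R' := h1
        exact h6.trans_le ((min_le_left _ _).trans (hR y hyT))
    calc _ ≤ ∫⁻ z in ⋃ y ∈ T, (Ug A f I D a (Fin.append z₀ y) (ρ y) ∩ {z | -2 * t ≤ v z - c₀}),
            ENNReal.ofReal (ge v z (cf (mix Φ (FF A f a)) k z)) := lintegral_mono_set hsub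
      _ ≤ ∑ y ∈ T, ∫⁻ z in Ug A f I D a (Fin.append z₀ y) (ρ y) ∩ {z | -2 * t ≤ v z - c₀},
            ENNReal.ofReal (ge v z (cf (mix Φ (FF A f a)) k z)) := lint_biUnion_le _ _ _
      _ ≤ ∑ y ∈ T, ENNReal.ofReal (C y * t ^ 2) :=
          Finset.sum_le_sum fun y hy => hC y (hT1 y hy) t ht Φ k
      _ = ENNReal.ofReal ((∑ y ∈ T, C y) * t ^ 2) := by
          rw [Finset.sum_mul, ENNReal.ofReal_sum_of_nonneg]
          intro y hy
          exact mul_nonneg (hC0 y (hT1 y hy)) (by positivity)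
  choose R hR C hC0 hC using hloc
  obtain ⟨r, hr0, hrr₂, hrR⟩ : ∃ r : ℝ, 0 < r ∧ r ≤ r₂ ∧ ∀ a, r ≤ R a := by
    have h2 : ∀ᶠ r in 𝓝[>] (0 : ℝ), ∀ a, r ≤ R a := by
      rw [Filter.eventually_all]
      intro a
      filter_upwards [Ioc_mem_nhdsGT (hR a)] with R hR
      exact hR.2
    have h3 : ∀ᶠ r in 𝓝[>] (0 : ℝ), r ≤ r₂ := by
      filter_upwards [Ioc_mem_nhdsGT hr₂0] with R hR
      exact hR.2
    obtain ⟨R, ⟨h4, h5⟩, h6⟩ := ((h2.and h3).and self_mem_nhdsWithin).exists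
    exact ⟨R, h6, h5, h4⟩
  have hbr1 : Metric.ball z₀ r ⊆ Metric.ball z₀ r₁ :=
    (Metric.ball_subset_ball hrr₂).trans hb21
  have hbrD : Metric.ball z₀ r ⊆ D := hbr1.trans hr₁D
  set c : ℕ → V n → ℝ := fun j z =>
    if z ∈ Metric.ball z₀ r ∧ g z ≠ 0 then th c₀ j (v z) else 0 with hc
  have hgc : ∀ z ∈ Metric.ball z₀ r, ContinuousAt g z := fun z hz =>
    (hg.differentiableAt (Metric.isOpen_ball.mem_nhds (hbr1 hz))).continuousAt
  have hnear1 : ∀ j, ∀ z ∈ Metric.ball z₀ r, g z ≠ 0 → c j =ᶠ[𝓝 z] fun x => th c₀ j (v x) := by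
    intro j z hz hgz
    filter_upwards [Metric.isOpen_ball.mem_nhds hz, (hgc z hz).eventually_ne hgz] with x hx hgx
    simp only [hc]
    rw [if_pos ⟨hx, hgx⟩]
  have hnear0 : ∀ j, ∀ z ∈ Metric.ball z₀ r, g z = 0 → ∀ᶠ x in 𝓝 z, c j x = 0 := by
    intro j z hz hgz
    have h1 : ContinuousAt (fun x => nsq (g x)) z := nsq_cont'.continuousAt.comp (hgc z hz)
    have h2 : nsq (g z) < Real.exp (2 * (c₀ - 2 * 4 ^ (j + 1))) := by
      rw [hgz, nsq_zero']; exact Real.exp_pos _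
    filter_upwards [h1.eventually_lt_const h2] with x hx
    simp only [hc]
    split_ifs with hcond
    · apply th_zero
      have h3 := nsq_pos' hcond.2
      have h4 := (Real.log_lt_iff_lt_exp h3).2 hx
      simp only [hv]
      linarith
    · rfl
  have hvsm : ∀ z ∈ Metric.ball z₀ r, g z ≠ 0 → ContDiffAt ℝ ∞ v z := by
    intro z hz hgz
    refine hvs.contDiffAt ?_
    exact inter_mem (Metric.isOpen_ball.mem_nhds (hbr1 hz)) ((hgc z hz).eventually_ne hgz)
  have hWo : IsOpen (Metric.ball z₀ r \ I) := by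
    have : Metric.ball z₀ r \ I = Metric.ball z₀ r ∩ (D \ I) := by
      ext z
      exact ⟨fun h => ⟨h.1, hbrD h.1, h.2⟩, fun h => ⟨h.1, h.2.2⟩⟩
    rw [this]
    exact Metric.isOpen_ball.inter hDI
  refine ⟨r, hr0, hbrD, c, ?_, ?_, ?_, ?_, ?_⟩
  · -- smoothness
    intro j z hz
    by_cases hgz : g z = 0
    · have h1 : c j =ᶠ[𝓝 z] fun _ => (0 : ℝ) := hnear0 j z hz hgz
      exact (contDiffAt_const.congr_of_eventuallyEq h1).contDiffWithinAt
    · have h1 := hnear1 j z hz hgz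
      have h2 : ContDiffAt ℝ ∞ (fun x => th c₀ j (v x)) z :=
        (th_contDiff c₀ j).contDiffAt.comp z (hvsm z hz hgz)
      exact (h2.congr_of_eventuallyEq h1).contDiffWithinAt
  · -- range
    intro j z
    simp only [hc]
    split_ifs
    · exact ⟨th_nonneg _ _ _, th_le_one _ _ _⟩
    · exact ⟨le_rfl, zero_le_one⟩
  · -- vanishing near `I`
    rintro j z ⟨hz, hzI⟩
    exact hnear0 j z hz ((hgI z (hbr1 hz)).1 hzI)
  · -- convergence
    rintro z ⟨hz, hzI⟩
    have hgz : g z ≠ 0 := fun h => hzI ((hgI z (hbr1 hz)).2 h)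
    refine (th_tendsto c₀ (v z)).congr fun j => ?_
    simp only [hc]
    rw [if_pos ⟨hz, hgz⟩]
  · -- energy
    intro a Φ k
    obtain ⟨CS, hCS0, hCS⟩ := bound_S
    set E : Set (V n) := (Metric.ball z₀ r \ I) ∩ Cb A f a (5 / 2) with hE
    have hEW : E ⊆ Metric.ball z₀ r \ I := inter_subset_left
    -- measurability
    have hEm : MeasurableSet E := by
      have hK : IsClosed ((A.φ a).symm '' (Metric.closedBall (0 : V n) (5 / 2))) := by
        refine IsCompact.isClosed ?_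
        refine (isCompact_closedBall (0 : V n) (5 / 2)).image_of_continuousOn ?_
        refine (A.φ a).continuousOn_symm.mono ?_
        exact (Metric.closedBall_subset_closedBall (by norm_num)).trans (A.ball a)
      obtain ⟨u, hu, hue⟩ := (continuousOn_iff_isClosed.1 M.cont) _ hK
      have he : E = Metric.ball z₀ r ∩ (u ∩ (D \ I)) := by
        rw [← hue]
        ext z
        constructor
        · rintro ⟨⟨h1, h2⟩, h3, h4⟩
          exact ⟨h1, ⟨_, h4, (A.φ a).left_inv h3⟩, hbrD h1, h2⟩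
        · rintro ⟨h1, ⟨y, hy, hye⟩, _, h2⟩
          have hyt : y ∈ (A.φ a).target :=
            A.ball a (Metric.closedBall_subset_closedBall (by norm_num) hy)
          refine ⟨⟨h1, h2⟩, ?_, ?_⟩
          · rw [← hye]; exact (A.φ a).map_target hyt
          · rw [← hye, (A.φ a).right_inv hyt]; exact hy
      rw [he]
      exact measurableSet_ball.inter (hu.measurableSet.inter hDI.measurableSet)
    have hvc : ContinuousOn v (Metric.ball z₀ r \ I) := by
      intro z hz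
      exact (hvsm z hz.1 (fun h => hz.2 ((hgI z (hbr1 hz.1)).2 h))).continuousAt.continuousWithinAt
    have hZm : ∀ i, MeasurableSet {z | z ∈ E ∧ Zn c₀ i (v z)} := by
      intro i
      obtain ⟨u, hu, hue⟩ := (continuousOn_iff_isClosed.1 hvc)
        (Icc (-2 * 4 ^ (i + 1) + c₀) (-4 ^ (i + 1) + c₀)) isClosed_Icc
      have he : {z | z ∈ E ∧ Zn c₀ i (v z)} = E ∩ (u ∩ (Metric.ball z₀ r \ I)) := by
        rw [← hue]
        ext z
        constructor
        · rintro ⟨h1, h2, h3⟩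
          exact ⟨h1, ⟨by linarith, by linarith⟩, hEW h1⟩
        · rintro ⟨h1, ⟨h2, h3⟩, _⟩
          exact ⟨h1, by linarith, by linarith⟩
      rw [he]
      exact hEm.inter (hu.measurableSet.inter hWo.measurableSet)
    -- the energy density
    have hge : ∀ j, ∀ z ∈ E, ∀ w : V n, ge (c j) z w = |deriv (th c₀ j) (v z)| ^ 2 * ge v z w := by
      intro j z hz w
      have hzb := (hEW hz).1
      have hgz : g z ≠ 0 := fun h => (hEW hz).2 ((hgI z (hbr1 hzb)).2 h)
      have h1 := hnear1 j z hzb hgz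
      have h2 : dr (c j) z w = dr (fun x => th c₀ j (v x)) z w := by
        simp only [dr]
        rw [h1.fderiv_eq]
      have h3 := (hPRD n z w).2.2.2.1 (th c₀ j) v
        ((th_contDiff c₀ j).differentiable (by norm_num) _)
        ((hvsm z hzb hgz).differentiableAt (by norm_num))
      simp only [ge]
      rw [h2, h3, norm_mul, mul_pow, Complex.norm_real, Real.norm_eq_abs]
    have hbound : ∀ j : ℕ, ∫⁻ z in E, ENNReal.ofReal (ge (c j) z (cf (mix Φ (FF A f a)) k z))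
        ≤ ENNReal.ofReal (CS ^ 2 * C a / ((j : ℝ) + 1)) := by
      intro j
      set h : V n → ℝ≥0∞ := fun z => ENNReal.ofReal (ge (c j) z (cf (mix Φ (FF A f a)) k z))
        with hh
      have hrest : ∫⁻ z in {z | z ∈ E ∧ ∀ i ∈ Finset.range (j + 1), ¬ Zn c₀ i (v z)}, h z = 0 := by
        have hm : MeasurableSet {z | z ∈ E ∧ ∀ i ∈ Finset.range (j + 1), ¬ Zn c₀ i (v z)} := by
          have he : {z | z ∈ E ∧ ∀ i ∈ Finset.range (j + 1), ¬ Zn c₀ i (v z)}
              = E \ ⋃ i ∈ Finset.range (j + 1), {z | z ∈ E ∧ Zn c₀ i (v z)} := by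
            ext z
            simp only [mem_ofPred_eq, Set.mem_sdiff, mem_iUnion, not_exists]
            constructor
            · rintro ⟨h1, h2⟩
              exact ⟨h1, fun i hi h3 => h2 i hi h3.2⟩
            · rintro ⟨h1, h2⟩
              exact ⟨h1, fun i hi h3 => h2 i hi ⟨h1, h3⟩⟩
          rw [he]
          exact hEm.diff (Finset.measurableSet_biUnion _ fun i _ => hZm i)
        refine le_antisymm ?_ (zero_le)
        calc ∫⁻ z in {z | z ∈ E ∧ ∀ i ∈ Finset.range (j + 1), ¬ Zn c₀ i (v z)}, h z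
            ≤ ∫⁻ _z in {z | z ∈ E ∧ ∀ i ∈ Finset.range (j + 1), ¬ Zn c₀ i (v z)}, 0 := by
              refine setLIntegral_mono' hm fun z hz => ?_
              simp only [hh]
              rw [hge j z hz.1, th_deriv_zero c₀ j
                (fun i hi => hz.2 i (Finset.mem_range.2 hi))]
              simp
          _ = 0 := by simp
      have hzone : ∀ i ∈ Finset.range (j + 1), ∫⁻ z in {z | z ∈ E ∧ Zn c₀ i (v z)}, h z
          ≤ ENNReal.ofReal (CS ^ 2 * C a / ((j : ℝ) + 1) ^ 2) := by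
        intro i _
        have h4 : (1 : ℝ) ≤ 4 ^ (i + 1) := one_le_pow₀ (by norm_num)
        calc ∫⁻ z in {z | z ∈ E ∧ Zn c₀ i (v z)}, h z
            ≤ ∫⁻ z in {z | z ∈ E ∧ Zn c₀ i (v z)},
                ENNReal.ofReal ((CS / (((j : ℝ) + 1) * 4 ^ (i + 1))) ^ 2) *
                  ENNReal.ofReal (ge v z (cf (mix Φ (FF A f a)) k z)) := by
              refine setLIntegral_mono' (hZm i) fun z hz => ?_
              simp only [hh]
              rw [hge j z hz.1, ← ENNReal.ofReal_mul (by positivity)]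
              refine ENNReal.ofReal_le_ofReal ?_
              have h5 := th_deriv_le c₀ j i hCS hz.2
              have h6 : 0 ≤ ge v z (cf (mix Φ (FF A f a)) k z) := by
                simp only [ge]; positivity
              gcongr
          _ = ENNReal.ofReal ((CS / (((j : ℝ) + 1) * 4 ^ (i + 1))) ^ 2) *
                ∫⁻ z in {z | z ∈ E ∧ Zn c₀ i (v z)},
                  ENNReal.ofReal (ge v z (cf (mix Φ (FF A f a)) k z)) :=
              lintegral_const_mul' _ _ ENNReal.ofReal_ne_top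
          _ ≤ ENNReal.ofReal ((CS / (((j : ℝ) + 1) * 4 ^ (i + 1))) ^ 2) *
                ENNReal.ofReal (C a * (4 ^ (i + 1)) ^ 2) := by
              gcongr
              refine le_trans (lintegral_mono_set ?_) (hC a (4 ^ (i + 1)) h4 Φ k)
              rintro z ⟨h1, h2⟩
              exact ⟨⟨⟨Metric.ball_subset_ball (hrR a) (hEW h1).1, (hEW h1).2⟩, h1.2⟩, h2.1⟩
          _ = ENNReal.ofReal (CS ^ 2 * C a / ((j : ℝ) + 1) ^ 2) := by
              rw [← ENNReal.ofReal_mul (by positivity)]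
              congr 1
              field_simp
      have hcover : E ⊆ {z | z ∈ E ∧ ∀ i ∈ Finset.range (j + 1), ¬ Zn c₀ i (v z)} ∪
          ⋃ i ∈ Finset.range (j + 1), {z | z ∈ E ∧ Zn c₀ i (v z)} := by
        intro z hz
        by_cases hcase : ∀ i ∈ Finset.range (j + 1), ¬ Zn c₀ i (v z)
        · exact Or.inl ⟨hz, hcase⟩
        · push Not at hcase
          obtain ⟨i, hi, hzi⟩ := hcase
          exact Or.inr (mem_iUnion₂.2 ⟨i, hi, hz, hzi⟩)
      calc ∫⁻ z in E, h z ≤ _ := lintegral_mono_set hcover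
        _ ≤ _ := lintegral_union_le _ _ _
        _ ≤ 0 + ∑ i ∈ Finset.range (j + 1), ∫⁻ z in {z | z ∈ E ∧ Zn c₀ i (v z)}, h z :=
            add_le_add hrest.le (lint_biUnion_le _ _ _)
        _ ≤ 0 + ∑ _i ∈ Finset.range (j + 1), ENNReal.ofReal (CS ^ 2 * C a / ((j : ℝ) + 1) ^ 2) :=
            add_le_add le_rfl (Finset.sum_le_sum hzone)
        _ = ENNReal.ofReal (CS ^ 2 * C a / ((j : ℝ) + 1)) := by
            rw [zero_add, Finset.sum_const, Finset.card_range, nsmul_eq_mul,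
              ← ENNReal.ofReal_natCast, ← ENNReal.ofReal_mul (by positivity)]
            congr 1
            push_cast
            field_simp
    refine tendsto_of_tendsto_of_tendsto_of_le_of_le tendsto_const_nhds ?_ (fun j => zero_le)
      hbound
    have h1 : Tendsto (fun j : ℕ => CS ^ 2 * C a / ((j : ℝ) + 1)) atTop (𝓝 0) := by
      have h2 : Tendsto (fun j : ℕ => ((j : ℝ) + 1)) atTop atTop :=
        tendsto_atTop_add_const_right _ _ tendsto_natCast_atTop_atTop
      exact tendsto_const_nhds.div_atTop h2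
    have h3 := ENNReal.tendsto_ofReal h1
    rwa [ENNReal.ofReal_zero] at h3

end Pool.Agent.H32.VG.Cui
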