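import Mathlib
import Pool.Agent.H95.VG.Targets1

/-!
# VG module OAO: the map `f` on its domain
-/

open MeasureTheory Set Filter Topology
open scoped ENNReal NNReal ContDiff ComplexConjugate
open Pool.Agent.H95.VG

namespace Pool.Agent.H32.VG

theorem oao : T_OAO := by
  intro n X _ _ ι A f I S a
  have hopen : ∀ b, IsOpen {z | z ∈ Dp n \ I ∧ f z ∈ (A.φ b).source} := by
    intro b
    have h := S.cont.isOpen_inter_preimage S.opn (A.φ b).open_source
    exact h
  have hOa : IsOpen (Oa A f I a) := by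
    have hU : IsOpen ((A.φ a).source ∩ (A.φ a) ⁻¹' (Metric.ball (0 : V n) 2)) :=
      (A.φ a).isOpen_inter_preimage Metric.isOpen_ball
    have h := S.cont.isOpen_inter_preimage S.opn hU
    have he : Oa A f I a = (Dp n \ I) ∩ f ⁻¹' ((A.φ a).source ∩ (A.φ a) ⁻¹' (Metric.ball (0 : V n) 2)) := by
      ext z
      simp only [Oa, mem_ofPred_eq, mem_inter_iff, mem_preimage]
    rw [he]; exact h
  refine ⟨hOa, ?_, ?_, ?_, ?_, ?_⟩
  · exact (S.hol a).mono fun z hz => ⟨hz.1, hz.2.1⟩
  · intro R hR
    have hK : IsClosed ((A.φ a).symm '' (Metric.closedBall (0 : V n) R)) := by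
      refine IsCompact.isClosed ?_
      refine (isCompact_closedBall (0 : V n) R).image_of_continuousOn ?_
      refine (A.φ a).continuousOn_symm.mono ?_
      exact (Metric.closedBall_subset_closedBall (by linarith)).trans (A.ball a)
    obtain ⟨u, hu, hue⟩ := (continuousOn_iff_isClosed.1 S.cont) _ hK
    refine ⟨u, hu, ?_⟩
    have he : (Dp n \ I) ∩ Cb A f a R
        = f ⁻¹' ((A.φ a).symm '' (Metric.closedBall (0 : V n) R)) ∩ (Dp n \ I) := by
      ext z
      constructor
      · rintro ⟨hz, hs, hb⟩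
        exact ⟨⟨_, hb, (A.φ a).left_inv hs⟩, hz⟩
      · rintro ⟨⟨y, hy, hye⟩, hz⟩
        have hyt : y ∈ (A.φ a).target :=
          A.ball a (Metric.closedBall_subset_closedBall (by linarith) hy)
        refine ⟨hz, ?_, ?_⟩
        · rw [← hye]; exact (A.φ a).map_target hyt
        · rw [← hye, (A.φ a).right_inv hyt]; exact hy
    rw [he, hue, inter_comm]
  · rintro R hR z ⟨hz, hs, hb⟩
    exact ⟨hz, hs, Metric.closedBall_subset_ball hR hb⟩
  · rintro z ⟨hz, hs, hb⟩
    exact ⟨hz, hs, Metric.ball_subset_closedBall hb⟩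
  · intro b z hz hsa hsb
    set T : V n → V n := fun y => A.φ a ((A.φ b).symm y) with hT
    have hdb : DifferentiableAt ℂ (FF A f b) z :=
      (S.hol b).differentiableAt ((hopen b).mem_nhds ⟨hz, hsb⟩)
    have hTd : DifferentiableAt ℂ T (FF A f b z) := by
      refine (A.hol b a).differentiableAt ?_
      refine ((A.φ b).symm.trans (A.φ a)).open_source.mem_nhds ?_
      rw [OpenPartialHomeomorph.trans_source, OpenPartialHomeomorph.symm_source]
      refine ⟨(A.φ b).map_source hsb, ?_⟩
      rw [mem_preimage]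
      change (A.φ b).symm (A.φ b (f z)) ∈ _
      rw [(A.φ b).left_inv hsb]; exact hsa
    have hev : FF A f a =ᶠ[𝓝 z] fun x => T (FF A f b x) := by
      filter_upwards [(hopen b).mem_nhds ⟨hz, hsb⟩] with x hx
      simp only [hT, FF]
      rw [(A.φ b).left_inv hx.2]
    have hfd : fderiv ℂ (FF A f a) z = (fderiv ℂ T (FF A f b z)).comp (fderiv ℂ (FF A f b) z) := by
      rw [hev.fderiv_eq]
      exact fderiv_comp z hTd hdb
    ext i j
    simp only [jac, Matrix.of_apply, Matrix.mul_apply]
    rw [hfd]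
    change (fderiv ℂ T (FF A f b z) (fderiv ℂ (FF A f b) z (ek j))) i
      = ∑ k, fderiv ℂ T (FF A f b z) (ek k) i * fderiv ℂ (FF A f b) z (ek j) k
    have hsum : fderiv ℂ (FF A f b) z (ek j)
        = ∑ k, (fderiv ℂ (FF A f b) z (ek j) k) • (ek k : V n) := by
      have := pi_eq_sum_univ' (fderiv ℂ (FF A f b) z (ek j))
      conv_lhs => rw [this]
      refine Finset.sum_congr rfl fun k _ => ?_
      congr 1
    conv_lhs => rw [hsum, map_sum, Finset.sum_apply]
    refine Finset.sum_congr rfl fun k _ => ?_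
    rw [map_smul, Pi.smul_apply, smul_eq_mul, mul_comm]

end Pool.Agent.H32.VG
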