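import Mathlib
import Pool.Agent.H95.VG.Targets1
import Pool.Agent.H95.VG.Targets3
import Pool.Agent.H32.VG.OAO

/-!
# VG: common tools for the modules FLN and LOG (levels of `η - h(F)`)
-/

open MeasureTheory Set Filter Topology
open scoped ENNReal NNReal ContDiff ComplexConjugate
open Pool.Agent.H95.VG

namespace Pool.Agent.H32.VG

variable {n : ℕ} {X : Type} [TopologicalSpace X] {ι : Type}

/-- the level of `z` in the chart `a` -/
noncomputable def sig (A : Atl n X ι) (f : V n → X) (h : ι → V n → ℝ) (η : V n → ℝ) (a : ι)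
    (z : V n) : ℝ := η z - h a (FF A f a z)

theorem FL_eq_fib (A : Atl n X ι) (f : V n → X) (I : Set (V n)) (h : ι → V n → ℝ)
    (η : V n → ℝ) (a : ι) (L : ℝ) {y : V n} (hy : f y ∈ (A.φ a).source) :
    FL f I η L y = fib A f I h η a (sig A f h η a y - L) (FF A f a y) := by
  ext z
  simp only [FL, fib, sig, mem_ofPred_eq, FF]
  constructor
  · rintro ⟨h1, h2, h3⟩
    refine ⟨h1, h2 ▸ hy, by rw [h2], by rw [h3]; ring⟩
  · rintro ⟨h1, h2, h3, h4⟩
    refine ⟨h1, (A.φ a).injOn h2 hy h3, by rw [h4]; ring⟩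

theorem mem_fib_self (A : Atl n X ι) (f : V n → X) (I : Set (V n)) (h : ι → V n → ℝ)
    (η : V n → ℝ) (a : ι) {y : V n} (hy : f y ∈ (A.φ a).source) (hq : y ∈ Dq n I) :
    y ∈ fib A f I h η a (sig A f h η a y) (FF A f a y) := by
  refine ⟨hq, hy, rfl, ?_⟩
  simp only [sig]; ring

theorem nsq_cont : Continuous (nsq (n := n)) := by
  unfold nsq
  exact continuous_finsetSum _ fun i _ => ((continuous_apply i).norm.pow 2)

theorem norm_sq_le (z : V n) : ‖z‖ ^ 2 ≤ nsq z := by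
  have h0 : 0 ≤ nsq z := Finset.sum_nonneg fun i _ => by positivity
  have h : ‖z‖ ≤ Real.sqrt (nsq z) := by
    rw [pi_norm_le_iff_of_nonneg (Real.sqrt_nonneg _)]
    intro i
    refine Real.le_sqrt_of_sq_le ?_
    exact Finset.single_le_sum (f := fun i => ‖z i‖ ^ 2) (fun i _ => by positivity)
      (Finset.mem_univ i)
  calc ‖z‖ ^ 2 ≤ Real.sqrt (nsq z) ^ 2 := by gcongr
    _ = nsq z := Real.sq_sqrt h0

theorem nsq_le (z : V n) : nsq z ≤ n * ‖z‖ ^ 2 := by
  unfold nsq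
  calc ∑ i, ‖z i‖ ^ 2 ≤ ∑ _i : Fin n, ‖z‖ ^ 2 := by
        refine Finset.sum_le_sum fun i _ => ?_
        gcongr
        exact norm_le_pi_norm z i
    _ = n * ‖z‖ ^ 2 := by simp

theorem isOpen_Dq [T2Space X] {A : Atl n X ι} {f : V n → X} {I : Set (V n)} (S : Sing A f I) :
    IsOpen (Dq n I) :=
  S.opn.inter (isOpen_lt nsq_cont continuous_const)

theorem sig_loc {A : Atl n X ι} {f : V n → X} {I : Set (V n)} {h : ι → V n → ℝ}
    {η : V n → ℝ} (E : Eta A f I h η) (a : ι) {z : V n} (hz : z ∈ Oa A f I a) :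
    ∀ᶠ z' in 𝓝 z, sig A f h η a z' = sig A f h η a z := E.loc a z hz

/-- the levels form a countable set -/
theorem countable_sig [T2Space X] {A : Atl n X ι} {f : V n → X} {I : Set (V n)}
    {h : ι → V n → ℝ} {η : V n → ℝ} (S : Sing A f I) (E : Eta A f I h η) (a : ι) :
    (sig A f h η a '' (Oa A f I a)).Countable := by
  have hO : IsOpen (Oa A f I a) := (oao n X ι A f I S a).1
  refine Set.PairwiseDisjoint.countable_of_isOpen
    (s := fun v => {z | z ∈ Oa A f I a ∧ sig A f h η a z = v}) ?_ ?_ ?_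
  · intro u _ v _ huv
    rw [Function.onFun, Set.disjoint_left]
    rintro z ⟨_, h1⟩ ⟨_, h2⟩
    exact huv (h1.symm.trans h2)
  · intro v _
    rw [isOpen_iff_mem_nhds]
    rintro z ⟨hz, hv⟩
    filter_upwards [hO.mem_nhds hz, sig_loc E a hz] with z' h1 h2
    exact ⟨h1, h2.trans hv⟩
  · rintro v ⟨z, hz, rfl⟩
    exact ⟨z, hz, rfl⟩

/-- transfer of almost everywhere statements from the charts to `Dp n \ I` -/
theorem ae_lev [T2Space X] [Countable ι] {A : Atl n X ι} {f : V n → X} {I : Set (V n)}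
    {h : ι → V n → ℝ} {η : V n → ℝ} (S : Sing A f I) (E : Eta A f I h η)
    (hN : ∀ (a : ι) (E : Set (V n)), volume E = 0 →
      volume {y ∈ Dp n \ I | f y ∈ (A.φ a).source ∧ A.φ a (f y) ∈ E} = 0)
    (P : ι → ℝ → V n → Prop)
    (hP : ∀ a s, ∀ᵐ y ∂(volume.restrict (Metric.ball (0 : V n) (3 / 2))), P a s y) :
    ∀ᵐ z ∂(volume.restrict (Dp n \ I)), ∀ a, f z ∈ (A.φ a).source →
      A.φ a (f z) ∈ Metric.ball (0 : V n) (3 / 2) → P a (sig A f h η a z) (A.φ a (f z)) := by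
  rw [ae_all_iff]
  intro a
  have h1 : ∀ᵐ z ∂(volume.restrict (Dp n \ I)), ∀ s ∈ sig A f h η a '' (Oa A f I a),
      z ∉ {y ∈ Dp n \ I | f y ∈ (A.φ a).source ∧ A.φ a (f y) ∈
        {y | y ∈ Metric.ball (0 : V n) (3 / 2) ∧ ¬ P a s y}} := by
    rw [ae_ball_iff (countable_sig S E a)]
    intro s _
    have h2 : volume {y | y ∈ Metric.ball (0 : V n) (3 / 2) ∧ ¬ P a s y} = 0 := by
      have h3 := hP a s
      rw [ae_restrict_iff' measurableSet_ball] at h3
      rw [ae_iff] at h3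
      refine measure_mono_null ?_ h3
      rintro y ⟨hy1, hy2⟩ hc
      exact hy2 (hc hy1)
    have h4 := hN a _ h2
    have h5 : volume.restrict (Dp n \ I) {y ∈ Dp n \ I | f y ∈ (A.φ a).source ∧ A.φ a (f y) ∈
        {y | y ∈ Metric.ball (0 : V n) (3 / 2) ∧ ¬ P a s y}} = 0 :=
      le_antisymm ((Measure.restrict_apply_le _ _).trans h4.le) (zero_le)
    exact compl_mem_ae_iff.2 h5
  filter_upwards [h1, ae_restrict_mem S.opn.measurableSet] with z hz hzD hs hb
  by_contra hc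
  refine hz (sig A f h η a z) ⟨z, ⟨hzD, hs, Metric.ball_subset_ball (by norm_num) hb⟩, rfl⟩ ?_
  exact ⟨hzD, hs, hb, hc⟩

/-- the image of a null set is null -/
theorem ae_img [T2Space X] {A : Atl n X ι} {f : V n → X} {I : Set (V n)}
    (S : Sing A f I) (a : ι) {Z : Set (V n)} (hZ : volume Z = 0) :
    ∀ᵐ y ∂(volume.restrict (Metric.ball (0 : V n) (3 / 2))), ∀ z ∈ Dp n \ I,
      f z ∈ (A.φ a).source → A.φ a (f z) = y → z ∉ Z := by
  have hd : DifferentiableOn ℂ (FF A f a) (Oa A f I a) := (oao n X ι A f I S a).2.1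
  have hd' : DifferentiableOn ℝ (FF A f a) (Z ∩ Oa A f I a) :=
    (hd.restrictScalars ℝ).mono inter_subset_right
  have h0 : volume (Z ∩ Oa A f I a) = 0 := measure_mono_null inter_subset_left hZ
  have h1 := addHaar_image_eq_zero_of_differentiableOn_of_addHaar_eq_zero volume hd' h0
  have h2 : ∀ᵐ y ∂(volume.restrict (Metric.ball (0 : V n) (3 / 2))),
      y ∉ FF A f a '' (Z ∩ Oa A f I a) :=
    compl_mem_ae_iff.2 (le_antisymm ((Measure.restrict_apply_le _ _).trans h1.le) (zero_le))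
  filter_upwards [h2, ae_restrict_mem measurableSet_ball] with y hy hyb z hz hs he hzZ
  apply hy
  refine ⟨z, ⟨hzZ, hz, hs, ?_⟩, he⟩
  rw [he]
  exact Metric.ball_subset_ball (by norm_num) hyb

/-- finitely many windows -/
theorem win_sum [Fintype ι] {A : Atl n X ι} {w : ι → V n → ℝ} {f : V n → X} {I : Set (V n)}
    {η : V n → ℝ} (hW : Win A w f I η) : ∃ C : ℝ, 0 ≤ C ∧ ∀ (K : ℕ) (s : ℝ),
      ∫⁻ z in (Dp n \ I) ∩ {z | nsq z < 1 / 4 ∧ |η z - s| ≤ K}, ENNReal.ofReal (PB A f w z)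
        ≤ ENNReal.ofReal ((K + 1) * C) := by
  obtain ⟨C, hC⟩ := hW
  refine ⟨max C 0, le_max_right _ _, fun K s => ?_⟩
  have hsub : (Dp n \ I) ∩ {z | nsq z < 1 / 4 ∧ |η z - s| ≤ K} ⊆
      ⋃ j : Fin (K + 1), (Dp n \ I) ∩ {z | nsq z ≤ 1 / 2 ∧ |η z - (s - K + 2 * j)| ≤ 1} := by
    rintro z ⟨hz, h1, h2⟩
    rw [abs_le] at h2
    rw [mem_iUnion]
    -- j = floor of (η z - s + K + 1) / 2, at most K
    set t : ℝ := (η z - s + K) / 2 with ht
    have ht0 : 0 ≤ t := by rw [ht]; linarith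
    have htK : t ≤ K := by rw [ht]; linarith
    set j : ℕ := ⌊t + 1 / 2⌋₊ with hj
    have hj1 : (j : ℝ) ≤ t + 1 / 2 := Nat.floor_le (by linarith)
    have hj2 : t + 1 / 2 < j + 1 := Nat.lt_floor_add_one _
    have hjK : j < K + 1 := by
      have : (j : ℝ) < K + 1 := by linarith
      exact_mod_cast this
    refine ⟨⟨j, hjK⟩, hz, by linarith, ?_⟩
    rw [abs_le]
    simp only
    constructor <;> (have : η z = s - K + 2 * t := by rw [ht]; ring) <;> rw [this] <;> linarith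
  calc ∫⁻ z in (Dp n \ I) ∩ {z | nsq z < 1 / 4 ∧ |η z - s| ≤ K}, ENNReal.ofReal (PB A f w z)
      ≤ ∫⁻ z in ⋃ j : Fin (K + 1), (Dp n \ I) ∩ {z | nsq z ≤ 1 / 2 ∧ |η z - (s - K + 2 * j)| ≤ 1},
          ENNReal.ofReal (PB A f w z) := lintegral_mono_set hsub
    _ ≤ ∑' j : Fin (K + 1), ∫⁻ z in
          (Dp n \ I) ∩ {z | nsq z ≤ 1 / 2 ∧ |η z - (s - K + 2 * j)| ≤ 1},
          ENNReal.ofReal (PB A f w z) := lintegral_iUnion_le _ _
    _ ≤ ∑' j : Fin (K + 1), ENNReal.ofReal (max C 0) := by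
        refine ENNReal.tsum_le_tsum fun j => (hC _).trans ?_
        exact ENNReal.ofReal_le_ofReal (le_max_left _ _)
    _ = ENNReal.ofReal ((K + 1) * max C 0) := by
        rw [tsum_fintype, Finset.sum_const, Finset.card_univ, Fintype.card_fin, nsmul_eq_mul,
          ENNReal.ofReal_mul (by positivity)]
        congr 1
        rw [← Nat.cast_add_one, ENNReal.ofReal_natCast]

/-- depth goes to the origin -/
theorem deep_of {A : Atl n X ι} {f : V n → X} {I : Set (V n)} {h : ι → V n → ℝ} {η : V n → ℝ}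
    (S : Sing A f I) (hh : Clo A h) (E : Eta A f I h η) (ε : ℝ) (hε : 0 < ε) :
    ∃ B : ℝ, ∀ z ∈ Dq n I, η z ≤ -B → ‖z‖ ≤ ε := by
  set K : Set (V n) := {z | ε ^ 2 ≤ nsq z ∧ nsq z ≤ 1 / 4} with hK
  have hKD : K ⊆ Dp n := by
    rintro z ⟨h1, h2⟩
    exact ⟨lt_of_lt_of_le (by positivity) h1, by linarith⟩
  have hKc : IsCompact K := by
    refine Metric.isCompact_of_isClosed_isBounded ?_ ?_
    · exact (isClosed_le continuous_const nsq_cont).inter (isClosed_le nsq_cont continuous_const)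
    · refine (Metric.isBounded_closedBall (x := (0 : V n)) (r := 1)).subset ?_
      rintro z ⟨_, h2⟩
      rw [mem_closedBall_zero_iff]
      have := norm_sq_le z
      nlinarith [norm_nonneg z]
  obtain ⟨C, hC⟩ := S.s3 h η hh E K hKD hKc
  refine ⟨C + 1, fun z hz hzB => ?_⟩
  by_contra hc
  rw [not_le] at hc
  have h1 : z ∈ K \ I := by
    refine ⟨⟨?_, hz.2.le⟩, hz.1.2⟩
    have := norm_sq_le z
    have : ε ^ 2 ≤ ‖z‖ ^ 2 := by gcongr
    linarith
  have h2 := hC z h1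
  rw [abs_le] at h2
  linarith [h2.1]

/-- a nonempty open ball has positive measure: an almost everywhere statement has a witness -/
theorem exists_of_ae_ball {P : V n → Prop}
    (hP : ∀ᵐ y ∂(volume.restrict (Metric.ball (0 : V n) (3 / 2))), P y) :
    ∃ y ∈ Metric.ball (0 : V n) (3 / 2), P y := by
  have hne : (volume.restrict (Metric.ball (0 : V n) (3 / 2))) ≠ 0 := by
    rw [Ne, Measure.restrict_eq_zero]
    exact (Metric.measure_ball_pos volume 0 (by norm_num)).ne'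
  haveI : (ae (volume.restrict (Metric.ball (0 : V n) (3 / 2)))).NeBot := ae_neBot.2 hne
  obtain ⟨y, h1, h2⟩ := (hP.and (ae_restrict_mem measurableSet_ball)).exists
  exact ⟨y, h2, h1⟩

end Pool.Agent.H32.VG
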