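import Mathlib
import Pool.Agent.H32.VG.Lev

/-!
# VG module FLN: the correspondences
-/

open MeasureTheory Set Filter Topology
open scoped ENNReal NNReal ContDiff ComplexConjugate
open Pool.Agent.H95.VG

namespace Pool.Agent.H32.VG

variable {n : ℕ} {X : Type} [TopologicalSpace X] {ι : Type}

theorem exists_near [T2Space X] {A : Atl n X ι} {f : V n → X} {I : Set (V n)} (S : Sing A f I)
    {P : V n → Prop} (hP : ∀ᵐ z ∂(volume.restrict (Dq n I)), P z) {z₀ : V n}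
    (hz₀ : z₀ ∈ Dq n I) {U : Set (V n)} (hU : U ∈ 𝓝 z₀) : ∃ z ∈ U, z ∈ Dq n I ∧ P z := by
  have hD := isOpen_Dq S
  rw [ae_restrict_iff' hD.measurableSet] at hP
  have hd := Measure.dense_of_ae hP
  have hmem : U ∩ Dq n I ∈ 𝓝 z₀ := inter_mem hU (hD.mem_nhds hz₀)
  obtain ⟨O, hO1, hO2, hO3⟩ := mem_nhds_iff.1 hmem
  obtain ⟨z, hz1, hz2⟩ := hd.inter_open_nonempty O hO2 ⟨z₀, hO3⟩
  exact ⟨z, (hO1 hz1).1, (hO1 hz1).2, hz2 (hO1 hz1).2⟩

theorem exists_in_window [T2Space X] {A : Atl n X ι} {f : V n → X} {I : Set (V n)}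
    (S : Sing A f I) {P : V n → Prop} (hP : ∀ᵐ z ∂(volume.restrict (Dq n I)), P z)
    {W : Set (V n)} (hW : W ⊆ Dq n I) {c : ℝ} (hc : 0 < c) (g : V n → ℝ≥0∞)
    (hi : ENNReal.ofReal c ≤ ∫⁻ z in W, g z) : ∃ z ∈ W, P z := by
  by_contra hcc
  push Not at hcc
  have h0 : volume W = 0 := by
    rw [ae_restrict_iff' (isOpen_Dq S).measurableSet, ae_iff] at hP
    refine measure_mono_null ?_ hP
    intro z hz h
    exact hcc z hz (h (hW hz))
  rw [setLIntegral_measure_zero _ _ h0] at hi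
  exact absurd hi (not_le.2 (ENNReal.ofReal_pos.2 hc))

theorem norm_finsum_mem_le {T : Set (V n)} {N : ℕ} (hT : T.encard = N) (g : V n → ℂ) (ε : ℝ)
    (hg : ∀ x ∈ T, ‖g x‖ ≤ ε) : ‖∑ᶠ x ∈ T, g x‖ ≤ N * ε := by
  have hfin : T.Finite := finite_of_encard_eq_coe hT
  rw [finsum_mem_eq_finite_toFinset_sum _ hfin]
  calc _ ≤ ∑ x ∈ hfin.toFinset, ‖g x‖ := norm_sum_le _ _
    _ ≤ ∑ _x ∈ hfin.toFinset, ε := Finset.sum_le_sum fun x hx => hg x (hfin.mem_toFinset.1 hx)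
    _ = N * ε := by
      have h1 := hfin.encard_eq_coe_toFinset_card
      rw [hT] at h1
      have h2 : N = hfin.toFinset.card := by exact_mod_cast h1
      rw [Finset.sum_const, nsmul_eq_mul, ← h2]

/-- what is true near a point of `Dq` whose image is well inside the chart `a` -/
theorem near_good [T2Space X] {A : Atl n X ι} {f : V n → X} {I : Set (V n)}
    {h : ι → V n → ℝ} {η : V n → ℝ} (S : Sing A f I) (E : Eta A f I h η) {a : ι} {z₀ : V n}
    (hz₀ : z₀ ∈ Dq n I) (hs : f z₀ ∈ (A.φ a).source)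
    (hb : A.φ a (f z₀) ∈ Metric.ball (0 : V n) (3 / 2)) :
    ∀ᶠ z in 𝓝 z₀, z ∈ Dq n I ∧ f z ∈ (A.φ a).source ∧
      A.φ a (f z) ∈ Metric.ball (0 : V n) (3 / 2) ∧ sig A f h η a z = sig A f h η a z₀ := by
  have hU : IsOpen ((A.φ a).source ∩ (A.φ a) ⁻¹' (Metric.ball (0 : V n) (3 / 2))) :=
    (A.φ a).isOpen_inter_preimage Metric.isOpen_ball
  have hO := S.cont.isOpen_inter_preimage S.opn hU
  have h1 := hO.mem_nhds ⟨hz₀.1, hs, hb⟩
  have h2 := (isOpen_Dq S).mem_nhds hz₀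
  have h3 : ∀ᶠ z' in 𝓝 z₀, sig A f h η a z' = sig A f h η a z₀ :=
    sig_loc E a ⟨hz₀.1, hs, Metric.ball_subset_ball (by norm_num) hb⟩
  filter_upwards [h1, h2, h3] with z h1 h2 h3
  exact ⟨h2, h1.2.1, h1.2.2, h3⟩

theorem ch_spec (A : Atl n X ι) (x : X) :
    x ∈ (A.φ (ch A x)).source ∧ A.φ (ch A x) x ∈ Metric.ball (0 : V n) 1 :=
  (A.cover x).choose_spec

theorem fln (hNUL : T_NUL) (hCON : T_CON) (hLVB : T_LVB) (hUPB : T_UPB) (hCNN : T_CNN) :
    T_FLN := by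
  intro n X _ _ _ _ ι _ A w f I h η hG S hh E hk hfl hW hNd
  classical
  obtain ⟨S₀, hS₀, hcon⟩ := hCON n X ι A w f I h η hG S hh E hW
  obtain ⟨c, H, hc, hH, hlv⟩ := hLVB n X ι A w f I h η hG S hh E
  obtain ⟨hNZ, hNE⟩ := hNUL n X ι A w f I hG S hNd
  obtain ⟨⟨B, hB⟩, cw, Sw, hcw, hwin⟩ := hUPB n X ι A w f I h η hG S hh E hk hfl hW hNd
  obtain ⟨Cw, hCw0, hCw⟩ := win_sum hW
  obtain ⟨hloc, hext⟩ := hCNN n X ι A f I S (1 / 4) (by norm_num) (by norm_num)
  have hDqo : IsOpen (Dq n I) := isOpen_Dq S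
  set μb : Measure (V n) := volume.restrict (Metric.ball (0 : V n) (3 / 2)) with hμb
  set μq : Measure (V n) := volume.restrict (Dq n I) with hμq
  have hN' : ∀ a s, ∃ N : ℕ, S₀ ≤ |s| → ∀ᵐ y ∂μb, (fib A f I h η a s y).encard = N := by
    intro a s
    by_cases hs : S₀ ≤ |s|
    · obtain ⟨⟨N, hN⟩, _⟩ := hcon a s hs
      exact ⟨N, fun _ => hN⟩
    · exact ⟨0, fun h => absurd h hs⟩
  choose Nn hNn using hN'
  have hQ' : ∀ a s (i : Fin n) (j : ℕ), ∃ Q : V n → ℂ, S₀ ≤ |s| →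
      DifferentiableOn ℂ Q (Metric.ball (0 : V n) (3 / 2)) ∧
      ∀ᵐ y ∂μb, Q y = ∑ᶠ z ∈ fib A f I h η a s y, (z i) ^ j := by
    intro a s i j
    by_cases hs : S₀ ≤ |s|
    · obtain ⟨_, hQ⟩ := hcon a s hs
      obtain ⟨Q, hQ⟩ := hQ i j
      exact ⟨Q, fun _ => hQ⟩
    · exact ⟨0, fun h => absurd h hs⟩
  choose Q hQ using hQ'
  set L₀ : ℝ := |B| + |H| + S₀ + 1 with hL₀
  have hL₀1 : 1 ≤ L₀ := by rw [hL₀]; linarith [abs_nonneg B, abs_nonneg H]
  have hlev : ∀ L, L₀ ≤ L → ∀ z ∈ Dq n I, ∀ a, A.φ a (f z) ∈ Metric.ball (0 : V n) (3 / 2) →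
      S₀ ≤ |sig A f h η a z - L| := by
    intro L hL z hz a hb
    rw [le_abs]; right
    have h1 := hH a _ (Metric.ball_subset_closedBall hb)
    rw [abs_le] at h1
    have h2 := hB z hz
    simp only [sig, FF]
    rw [hL₀] at hL
    linarith [le_abs_self B, le_abs_self H]
  set K : ℕ := ⌈1 + H⌉₊ with hK
  set m₁ : ℕ := ⌈(K + 1) * Cw / c⌉₊ with hm₁
  have hNm : ∀ a s, S₀ ≤ |s| → Nn a s ≤ m₁ := by
    intro a s hs
    have h1 := hlv a {s} (fun s => Nn a s) s (fun s' hs' => by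
        rw [Finset.mem_singleton] at hs'; rw [hs', sub_self, abs_zero]; norm_num)
      (fun s' hs' => by
        rw [Finset.mem_singleton] at hs'
        rw [hs']
        filter_upwards [hNn a s hs] with y hy
        rw [hy])
    have h2 : ∫⁻ z in (Dp n \ I) ∩ {z | nsq z < 1 / 4 ∧ |η z - s| ≤ 1 + H},
        ENNReal.ofReal (PB A f w z) ≤ ENNReal.ofReal ((K + 1) * Cw) := by
      refine le_trans (lintegral_mono_set ?_) (hCw K s)
      rintro z ⟨hz, hz1, hz2⟩
      exact ⟨hz, hz1, hz2.trans (Nat.le_ceil _)⟩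
    have h3 := h1.trans h2
    rw [ENNReal.ofReal_le_ofReal_iff (by positivity), Finset.sum_singleton] at h3
    have h4 : (Nn a s : ℝ) ≤ (K + 1) * Cw / c := by
      rw [le_div_iff₀ hc, mul_comm]; exact h3
    have h5 : (Nn a s : ℝ) ≤ (m₁ : ℝ) := h4.trans (Nat.le_ceil _)
    exact Nat.cast_le.1 h5
  -- the almost everywhere description of `FL`
  have hae : ∀ L, L₀ ≤ L → ∀ᵐ z ∂μq, ∀ a, f z ∈ (A.φ a).source →
      A.φ a (f z) ∈ Metric.ball (0 : V n) (3 / 2) →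
      (FL f I η L z).encard = Nn a (sig A f h η a z - L) ∧
      ∀ i j, Q a (sig A f h η a z - L) i j (FF A f a z) = ∑ᶠ x ∈ FL f I η L z, (x i) ^ j := by
    intro L hL
    have hP := ae_lev S E hNE
      (fun a s y => S₀ ≤ |s - L| → (fib A f I h η a (s - L) y).encard = Nn a (s - L) ∧
        ∀ i j, Q a (s - L) i j y = ∑ᶠ x ∈ fib A f I h η a (s - L) y, (x i) ^ j) (by
      intro a s
      by_cases hs : S₀ ≤ |s - L|
      · have h1 := hNn a (s - L) hs
        have h2 : ∀ᵐ y ∂μb, ∀ i j, Q a (s - L) i j y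
            = ∑ᶠ x ∈ fib A f I h η a (s - L) y, (x i) ^ j := by
          rw [ae_all_iff]; intro i
          rw [ae_all_iff]; intro j
          exact (hQ a (s - L) i j hs).2
        filter_upwards [h1, h2] with y h1 h2 _
        exact ⟨h1, h2⟩
      · exact ae_of_all _ fun y hcc => absurd hcc hs)
    have hP' := ae_restrict_of_ae_restrict_of_subset
      (show Dq n I ⊆ Dp n \ I from fun z hz => hz.1) hP
    filter_upwards [hP', ae_restrict_mem hDqo.measurableSet] with z hz hzq a hs hb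
    have h1 := hz a hs hb (hlev L hL z hzq a hb)
    rw [FL_eq_fib A f I h η a L hs]
    exact h1
  -- gluing
  have hglN : ∀ L, L₀ ≤ L → ∀ z₀ ∈ Dq n I, ∀ a b, f z₀ ∈ (A.φ a).source →
      A.φ a (f z₀) ∈ Metric.ball (0 : V n) (3 / 2) → f z₀ ∈ (A.φ b).source →
      A.φ b (f z₀) ∈ Metric.ball (0 : V n) (3 / 2) →
      Nn a (sig A f h η a z₀ - L) = Nn b (sig A f h η b z₀ - L) := by
    intro L hL z₀ hz₀ a b has hab hbs hbb
    obtain ⟨z, ⟨⟨_, h1, h2, h3⟩, ⟨_, h4, h5, h6⟩⟩, _, hz⟩ := exists_near S (hae L hL) hz₀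
      ((near_good S E hz₀ has hab).and (near_good S E hz₀ hbs hbb))
    have e1 := (hz a h1 h2).1
    have e2 := (hz b h4 h5).1
    rw [h3] at e1
    rw [h6] at e2
    have := e1.symm.trans e2
    exact_mod_cast this
  have hQc : ∀ L, L₀ ≤ L → ∀ z₀ ∈ Dq n I, ∀ a, f z₀ ∈ (A.φ a).source →
      A.φ a (f z₀) ∈ Metric.ball (0 : V n) (3 / 2) → ∀ i j,
      DifferentiableAt ℂ (fun z => Q a (sig A f h η a z₀ - L) i j (FF A f a z)) z₀ := by
    intro L hL z₀ hz₀ a has hab i j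
    have hO : IsOpen (Oa A f I a) := (oao n X ι A f I S a).1
    have hd : DifferentiableOn ℂ (FF A f a) (Oa A f I a) := (oao n X ι A f I S a).2.1
    have hzO : z₀ ∈ Oa A f I a := ⟨hz₀.1, has, Metric.ball_subset_ball (by norm_num) hab⟩
    have h1 : DifferentiableAt ℂ (FF A f a) z₀ := hd.differentiableAt (hO.mem_nhds hzO)
    have h2 : DifferentiableAt ℂ (Q a (sig A f h η a z₀ - L) i j) (FF A f a z₀) :=
      ((hQ a (sig A f h η a z₀ - L) i j (hlev L hL z₀ hz₀ a hab)).1).differentiableAt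
        (Metric.isOpen_ball.mem_nhds hab)
    exact h2.comp z₀ h1
  have hglQ : ∀ L, L₀ ≤ L → ∀ z₀ ∈ Dq n I, ∀ a b, f z₀ ∈ (A.φ a).source →
      A.φ a (f z₀) ∈ Metric.ball (0 : V n) (3 / 2) → f z₀ ∈ (A.φ b).source →
      A.φ b (f z₀) ∈ Metric.ball (0 : V n) (3 / 2) → ∀ i j,
      Q a (sig A f h η a z₀ - L) i j (FF A f a z₀)
        = Q b (sig A f h η b z₀ - L) i j (FF A f b z₀) := by
    intro L hL z₀ hz₀ a b has hab hbs hbb i j
    by_contra hne
    have hca := (hQc L hL z₀ hz₀ a has hab i j).continuousAt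
    have hcb := (hQc L hL z₀ hz₀ b hbs hbb i j).continuousAt
    have hev : ∀ᶠ z in 𝓝 z₀, Q a (sig A f h η a z₀ - L) i j (FF A f a z)
        ≠ Q b (sig A f h η b z₀ - L) i j (FF A f b z) := by
      have h1 := (hca.sub hcb).eventually_ne (sub_ne_zero.2 hne)
      filter_upwards [h1] with z hz
      exact sub_ne_zero.1 hz
    obtain ⟨z, ⟨⟨⟨_, h1, h2, h3⟩, ⟨_, h4, h5, h6⟩⟩, h7⟩, _, hz⟩ :=
      exists_near S (hae L hL) hz₀
      (((near_good S E hz₀ has hab).and (near_good S E hz₀ hbs hbb)).and hev)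
    have e1 := (hz a h1 h2).2 i j
    have e2 := (hz b h4 h5).2 i j
    rw [h3] at e1
    rw [h6] at e2
    exact h7 (e1.trans e2.symm)
  have hch : ∀ x : X, x ∈ (A.φ (ch A x)).source ∧
      A.φ (ch A x) x ∈ Metric.ball (0 : V n) (3 / 2) := fun x =>
    ⟨(ch_spec A x).1, Metric.ball_subset_ball (by norm_num) (ch_spec A x).2⟩
  -- the numbers
  have hNL : ∀ L, ∃ N : ℕ, L₀ ≤ L → ∀ z ∈ Dq n I, ∀ a, f z ∈ (A.φ a).source →
      A.φ a (f z) ∈ Metric.ball (0 : V n) (3 / 2) → Nn a (sig A f h η a z - L) = N := by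
    intro L
    by_cases hL : L₀ ≤ L
    swap
    · exact ⟨0, fun hcc => absurd hcc hL⟩
    by_cases hne : (Dq n I).Nonempty
    swap
    · exact ⟨0, fun _ z hz => absurd ⟨z, hz⟩ hne⟩
    obtain ⟨z₁, hz₁⟩ := hne
    set g : V n → ℕ := fun z => Nn (ch A (f z)) (sig A f h η (ch A (f z)) z - L) with hg
    have hgl : ∀ z ∈ Dp n \ I, nsq z < 1 / 4 → ∀ᶠ z' in 𝓝 z, g z' = g z := by
      intro z₀ hz₀ hn
      obtain ⟨hs, hb⟩ := hch (f z₀)
      filter_upwards [near_good S E ⟨hz₀, hn⟩ hs hb] with z hz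
      obtain ⟨h1, h2, h3, h4⟩ := hz
      obtain ⟨hs', hb'⟩ := hch (f z)
      have h5 := hglN L hL z h1 _ _ hs' hb' h2 h3
      simp only [hg]
      rw [h5, h4]
    refine ⟨g z₁, fun _ z hz a has hab => ?_⟩
    obtain ⟨hs, hb⟩ := hch (f z)
    rw [hglN L hL z hz a _ has hab hs hb]
    exact hloc ℕ g hgl z hz.1 z₁ hz₁.1 hz.2 hz₁.2
  choose N hN using hNL
  have hcard : ∀ L, L₀ ≤ L → ∀ᵐ y ∂μq, (FL f I η L y).encard = N L := by
    intro L hL
    filter_upwards [hae L hL, ae_restrict_mem hDqo.measurableSet] with y hy hyq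
    obtain ⟨hs, hb⟩ := hch (f y)
    rw [(hy _ hs hb).1, hN L hL y hyq _ hs hb]
  have hDne : ∀ P : V n → Prop, (∀ᵐ z ∂μq, P z) → ∃ z ∈ Dq n I, P z := by
    intro P hP
    have hsub : (Dp n \ I) ∩ {z | nsq z < 1 / 4 ∧ |η z + Sw| ≤ 1} ⊆ Dq n I := by
      rintro z ⟨h1, h2, _⟩
      exact ⟨h1, h2⟩
    obtain ⟨z, hz, hPz⟩ := exists_in_window S hP hsub hcw _ (hwin Sw le_rfl)
    exact ⟨z, hsub hz, hPz⟩
  have hNle : ∀ L, L₀ ≤ L → N L ≤ m₁ := by
    intro L hL
    obtain ⟨z, hz, _⟩ := hDne (fun _ => True) (ae_of_all _ fun _ => trivial)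
    obtain ⟨hs, hb⟩ := hch (f z)
    rw [← hN L hL z hz _ hs hb]
    exact hNm _ _ (hlev L hL z hz _ hb)
  have hdeep := deep_of S hh E
  refine ⟨L₀, m₁ + 1, N, ?_⟩
  refine ⟨⟨by linarith, by omega⟩, fun L hL => (hNle L hL).trans (by omega), hcard, ?_, ?_,
    hdeep, ⟨B, hB⟩, ?_, ?_, S.null⟩
  · -- null
    intro Z hZ
    have h1 := hNZ (Z ∩ (Dp n \ I)) inter_subset_right (measure_mono_null inter_subset_left hZ)
    have h2 : ∀ᵐ y ∂μq, y ∉ {y ∈ Dp n \ I | ∃ z ∈ Z ∩ (Dp n \ I), f z = f y} :=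
      compl_mem_ae_iff.2 (le_antisymm ((Measure.restrict_apply_le _ _).trans h1.le) (zero_le))
    filter_upwards [h2, ae_restrict_mem hDqo.measurableSet] with y hy hyq z hz he hzZ
    exact hy ⟨hyq.1, z, ⟨hzZ, hz.1⟩, he⟩
  · -- power sums
    intro L hL i j hj
    set P₀ : V n → ℂ := fun z =>
      Q (ch A (f z)) (sig A f h η (ch A (f z)) z - L) i j (FF A f (ch A (f z)) z) with hP₀
    have hnear : ∀ z₀ ∈ Dq n I, P₀ =ᶠ[𝓝 z₀] fun z =>
        Q (ch A (f z₀)) (sig A f h η (ch A (f z₀)) z₀ - L) i j (FF A f (ch A (f z₀)) z) := by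
      intro z₀ hz₀
      obtain ⟨hs, hb⟩ := hch (f z₀)
      filter_upwards [near_good S E hz₀ hs hb] with z hz
      obtain ⟨h1, h2, h3, h4⟩ := hz
      obtain ⟨hs', hb'⟩ := hch (f z)
      have h5 := hglQ L hL z h1 _ _ hs' hb' h2 h3 i j
      simp only [hP₀]
      rw [h5, h4]
    have hPd : ∀ z₀ ∈ Dq n I, DifferentiableAt ℂ P₀ z₀ := by
      intro z₀ hz₀
      obtain ⟨hs, hb⟩ := hch (f z₀)
      exact (hQc L hL z₀ hz₀ _ hs hb i j).congr_of_eventuallyEq (hnear z₀ hz₀)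
    have hPae : ∀ᵐ z ∂μq, (FL f I η L z).encard = N L ∧
        P₀ z = ∑ᶠ x ∈ FL f I η L z, (x i) ^ j := by
      filter_upwards [hae L hL, hcard L hL] with z hz hz'
      obtain ⟨hs, hb⟩ := hch (f z)
      exact ⟨hz', (hz _ hs hb).2 i j⟩
    have hDq1 : ∀ x ∈ Dq n I, ‖x‖ ≤ 1 := by
      intro x hx
      have h1 := norm_sq_le x
      have h2 := hx.2
      nlinarith [norm_nonneg x]
    have hPb : ∀ z ∈ Dq n I, ‖P₀ z‖ ≤ N L := by
      intro z₀ hz₀
      by_contra hcc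
      rw [not_le] at hcc
      have hev : ∀ᶠ z in 𝓝 z₀, (N L : ℝ) < ‖P₀ z‖ :=
        ((hPd z₀ hz₀).continuousAt.norm).eventually_const_lt hcc
      obtain ⟨z, h1, _, h2, h3⟩ := exists_near S hPae hz₀ hev
      have h4 := norm_finsum_mem_le h2 (fun x => (x i) ^ j) 1 (fun x hx => by
        rw [norm_pow]
        exact pow_le_one₀ (norm_nonneg _) ((norm_le_pi_norm x i).trans (hDq1 x hx.1)))
      rw [← h3, mul_one] at h4
      exact absurd h1 (not_lt.2 h4)
    obtain ⟨G, hG1, hG2⟩ := hext P₀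
      (fun z hz => (hPd z ⟨hz.1, hz.2⟩).differentiableWithinAt)
      ⟨N L, fun z hz => hPb z ⟨hz.1, hz.2⟩⟩
    refine ⟨G, hG1, ?_, ?_⟩
    · by_contra hG0
      have h0mem : (0 : V n) ∈ {z : V n | nsq z < 1 / 4} := by
        show nsq (0 : V n) < 1 / 4
        simp [nsq]
      have hop : IsOpen {z : V n | nsq z < 1 / 4} := isOpen_lt nsq_cont continuous_const
      have hGc : ContinuousAt G 0 := (hG1.differentiableAt (hop.mem_nhds h0mem)).continuousAt
      have hδ : 0 < ‖G 0‖ := norm_pos_iff.2 hG0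
      have hev : ∀ᶠ y in 𝓝 (0 : V n), ‖G 0‖ / 2 < ‖G y‖ :=
        hGc.norm.eventually_const_lt (by linarith)
      obtain ⟨r, hr, hball⟩ := Metric.eventually_nhds_iff_ball.1 hev
      set ε : ℝ := min (min (r / 2) 1) (‖G 0‖ / 2 / (N L + 1)) with hε
      have hε0 : 0 < ε := by
        rw [hε]
        refine lt_min (lt_min (by linarith) one_pos) ?_
        positivity
      have hε1 : ε ≤ 1 := (min_le_left _ _).trans (min_le_right _ _)
      have hεr : ε ≤ r / 2 := (min_le_left _ _).trans (min_le_left _ _)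
      have hεδ : (N L : ℝ) * ε ≤ ‖G 0‖ / 2 := by
        have h1 : ε ≤ ‖G 0‖ / 2 / (N L + 1) := min_le_right _ _
        rw [le_div_iff₀ (by positivity)] at h1
        nlinarith
      obtain ⟨B', hB'⟩ := hdeep ε hε0
      set s : ℝ := max Sw (B' + 1) with hs
      have hsub : (Dp n \ I) ∩ {z | nsq z < 1 / 4 ∧ |η z + s| ≤ 1} ⊆ Dq n I := by
        rintro z ⟨h1, h2, _⟩
        exact ⟨h1, h2⟩
      obtain ⟨y, hy, hy1, hy2⟩ := exists_in_window S hPae hsub hcw _ (hwin s (le_max_left _ _))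
      have hyq := hsub hy
      have hηy : η y ≤ -B' := by
        have h1 := (abs_le.1 hy.2.2).2
        have h2 : B' + 1 ≤ s := le_max_right _ _
        linarith
      have hyn : ‖y‖ ≤ ε := hB' y hyq hηy
      have h4 := norm_finsum_mem_le hy1 (fun x => (x i) ^ j) ε (fun x hx => by
        have hηx : η x ≤ -B' := by rw [hx.2.2]; linarith
        have hxn : ‖x‖ ≤ ε := hB' x hx.1 hηx
        rw [norm_pow]
        calc ‖x i‖ ^ j ≤ ε ^ j := by
              gcongr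
              exact (norm_le_pi_norm x i).trans hxn
          _ ≤ ε ^ 1 := pow_le_pow_of_le_one hε0.le hε1 hj
          _ = ε := pow_one ε)
      rw [← hy2] at h4
      have h5 := hball y (by rw [mem_ball_zero_iff]; linarith)
      rw [hG2 y ⟨hyq.1, hyq.2⟩] at h5
      linarith
    · filter_upwards [hPae, ae_restrict_mem hDqo.measurableSet] with y hy hyq
      rw [hG2 y ⟨hyq.1, hyq.2⟩]
      exact hy.2
  · -- arbitrarily large depths
    let Occ : ι → ℝ → Prop := fun a s => ∀ᵐ y ∂μb, (fib A f I h η a s y).Nonempty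
    have hnot : ∀ a s, S₀ ≤ |s| → ¬ Occ a s → ∀ᵐ y ∂μb, fib A f I h η a s y = ∅ := by
      intro a s hs hns
      by_cases hM0 : Nn a s = 0
      · filter_upwards [hNn a s hs] with y hy
        rw [hM0] at hy
        exact encard_eq_zero.1 (by simpa using hy)
      · exfalso
        apply hns
        filter_upwards [hNn a s hs] with y hy
        rw [← encard_pos, hy]
        exact_mod_cast Nat.pos_of_ne_zero hM0
    have hP := ae_lev S E hNE
      (fun a s y => S₀ ≤ |s| → ¬ Occ a s → fib A f I h η a s y = ∅) (by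
      intro a s
      by_cases h1 : S₀ ≤ |s|
      · by_cases h2 : Occ a s
        · exact ae_of_all _ fun y _ h3 => absurd h2 h3
        · filter_upwards [hnot a s h1 h2] with y hy _ _
          exact hy
      · exact ae_of_all _ fun y h3 => absurd h3 h1)
    have hP' := ae_restrict_of_ae_restrict_of_subset
      (show Dq n I ⊆ Dp n \ I from fun z hz => hz.1) hP
    have hocc1 : ∀ T : ℝ, ∃ a s, s ≤ -T ∧ Occ a s := by
      intro T
      set s' : ℝ := max Sw (|T| + S₀ + 1 + |H|) with hs'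
      have hsub : (Dp n \ I) ∩ {z | nsq z < 1 / 4 ∧ |η z + s'| ≤ 1} ⊆ Dq n I := by
        rintro z ⟨h1, h2, _⟩
        exact ⟨h1, h2⟩
      obtain ⟨y, hy, hyP⟩ := exists_in_window S hP' hsub hcw _ (hwin s' (le_max_left _ _))
      have hyq := hsub hy
      obtain ⟨hs, hb⟩ := hch (f y)
      have hη := (abs_le.1 hy.2.2).2
      have hs2 : |T| + S₀ + 1 + |H| ≤ s' := le_max_right _ _
      have hHy := (abs_le.1 (hH (ch A (f y)) _ (Metric.ball_subset_closedBall hb))).1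
      have hsg : sig A f h η (ch A (f y)) y ≤ -|T| - S₀ := by
        simp only [sig, FF]
        linarith [le_abs_self H]
      refine ⟨ch A (f y), sig A f h η (ch A (f y)) y, ?_, ?_⟩
      · linarith [le_abs_self T]
      · by_contra hcc
        have h1 := hyP _ hs hb (by rw [le_abs]; right; linarith [abs_nonneg T]) hcc
        have h2 := mem_fib_self A f I h η _ hs hyq
        rw [FF, h1] at h2
        exact h2
    obtain ⟨a, ha⟩ : ∃ a, ∀ T : ℝ, ∃ s, s ≤ -T ∧ Occ a s := by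
      by_contra hcc
      push Not at hcc
      choose T hT using hcc
      obtain ⟨a, s, h1, h2⟩ := hocc1 (∑ a, |T a|)
      refine hT a s ?_ h2
      have h3 : |T a| ≤ ∑ a, |T a| :=
        Finset.single_le_sum (f := fun a => |T a|) (fun a _ => abs_nonneg _) (Finset.mem_univ a)
      linarith [le_abs_self (T a)]
    intro B₁
    obtain ⟨s₁, hs₁, hO₁⟩ := ha 0
    obtain ⟨s, hs, hO⟩ := ha (|B₁| + L₀ - s₁)
    set L : ℝ := s₁ - s with hL
    have hLL : |B₁| + L₀ ≤ L := by rw [hL]; linarith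
    have hL0 : L₀ ≤ L := by linarith [abs_nonneg B₁]
    refine ⟨L, by linarith [le_abs_self B₁], hL0, ?_⟩
    have hZ : volume {y | y ∈ Dq n I ∧ ¬ (FL f I η L y).encard = N L} = 0 := by
      have h1 := hcard L hL0
      rw [hμq, ae_restrict_iff' hDqo.measurableSet, ae_iff] at h1
      refine measure_mono_null ?_ h1
      rintro y ⟨hy1, hy2⟩ hcc
      exact hy2 (hcc hy1)
    obtain ⟨y, hyb, ⟨h1, h2⟩, h3⟩ := exists_of_ae_ball
      ((Filter.Eventually.and hO₁ hO).and (ae_img S a hZ))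
    obtain ⟨z, hz⟩ := h1
    have hsz : sig A f h η a z = s₁ := by
      simp only [sig, FF]
      rw [hz.2.2.1, hz.2.2.2]; ring
    have hFL := FL_eq_fib A f I h η a L hz.2.1
    rw [hsz, FF, hz.2.2.1] at hFL
    have hss : s₁ - L = s := by rw [hL]; ring
    rw [hss] at hFL
    have h4 := h3 z hz.1.1 hz.2.1 hz.2.2.1
    have h5 : (FL f I η L z).encard = N L := by
      by_contra hcc
      exact h4 ⟨hz.1, hcc⟩
    rw [hFL] at h5
    have h6 := encard_pos.2 h2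
    rw [h5] at h6
    have h7 : 0 < N L := by exact_mod_cast h6
    exact h7
  · -- positive measure
    intro h0
    obtain ⟨z, hz, hF⟩ := hDne (fun _ => False) (by
      rw [ae_iff]
      simp only [not_false_eq_true]
      rw [hμq, Measure.restrict_eq_zero.2 h0]
      simp)
    exact hF

end Pool.Agent.H32.VG
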