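import Mathlib
import Pool.Agent.H95.VG.Targets2

/-!
# VG module GRW: growth of polynomials
-/

open MeasureTheory Set Filter Topology
open scoped ENNReal NNReal ContDiff ComplexConjugate
open Pool.Agent.H95.VG

namespace Pool.Agent.H32.VG

/-- restriction of a polynomial to a line through the origin -/
theorem exists_line {n : ℕ} (P : MvPolynomial (Fin n) ℂ) (v : V n) :
    ∃ p : Polynomial ℂ, p.natDegree ≤ P.totalDegree ∧
      ∀ ζ : ℂ, p.eval ζ = MvPolynomial.eval (fun i => v i * ζ) P := by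
  refine ⟨∑ s ∈ P.support, Polynomial.C (P.coeff s) *
    ∏ i, (Polynomial.C (v i) * Polynomial.X) ^ (s i), ?_, ?_⟩
  · refine Polynomial.natDegree_sum_le_of_forall_le _ _ fun s hs => ?_
    refine le_trans ?_ (MvPolynomial.le_totalDegree hs)
    rw [Finsupp.sum_fintype _ _ (fun _ => rfl)]
    refine (Polynomial.natDegree_C_mul_le _ _).trans ?_
    refine (Polynomial.natDegree_prod_le _ _).trans ?_
    refine Finset.sum_le_sum fun i _ => ?_
    have h1 : (Polynomial.C (v i) * Polynomial.X).natDegree ≤ 1 :=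
      (Polynomial.natDegree_C_mul_le _ _).trans Polynomial.natDegree_X_le
    exact (Polynomial.natDegree_pow_le_of_le (s i) h1).trans (by simp)
  · intro ζ
    rw [Polynomial.eval_finsetSum, MvPolynomial.eval_eq']
    refine Finset.sum_congr rfl fun s _ => ?_
    rw [Polynomial.eval_mul, Polynomial.eval_C, Polynomial.eval_prod]
    simp

theorem grw : T_GRW := by
  intro n d P hd hP z hz
  set r := Real.sqrt (nsq z) with hr
  have hr1 : 1 ≤ r := by rw [hr]; exact Real.one_le_sqrt.2 hz
  have hr0 : 0 < r := lt_of_lt_of_le one_pos hr1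
  have hrc : (r : ℂ) ≠ 0 := by exact_mod_cast hr0.ne'
  have hrr : r ^ 2 = nsq z := Real.sq_sqrt (by linarith)
  set v : V n := fun i => z i / r with hv
  have hnv : nsq v = 1 := by
    have : nsq v = nsq z / r ^ 2 := by
      simp only [nsq, hv, Finset.sum_div]
      refine Finset.sum_congr rfl fun i _ => ?_
      rw [norm_div, div_pow]
      congr 2
      rw [Complex.norm_real, Real.norm_of_nonneg hr0.le]
    rw [this, hrr]; exact div_self (by linarith)
  obtain ⟨p, hpd, hpe⟩ := exists_line P v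
  have hpd' : p.natDegree ≤ d := hpd.trans hd
  have hb : ∀ ζ : ℂ, ‖ζ‖ ≤ 1 → ‖p.eval ζ‖ ≤ 1 := by
    intro ζ hζ
    rw [hpe]
    apply hP
    have : nsq (fun i => v i * ζ) = nsq v * ‖ζ‖ ^ 2 := by
      simp only [nsq, Finset.sum_mul]
      refine Finset.sum_congr rfl fun i _ => ?_
      rw [norm_mul, mul_pow]
    rw [this, hnv, one_mul]
    exact pow_le_one₀ (norm_nonneg _) hζ
  have hq : ∀ ζ : ℂ, ζ ≠ 0 → (p.reflect d).eval ζ = ζ ^ d * p.eval ζ⁻¹ := by
    intro ζ hζ
    let _ : Invertible ζ⁻¹ := invertibleOfNonzero (inv_ne_zero hζ)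
    have h := Polynomial.eval₂_reflect_mul_pow (RingHom.id ℂ) ζ⁻¹ d p hpd'
    rw [invOf_eq_inv, inv_inv] at h
    simp only [Polynomial.eval₂_id] at h
    rw [← h, mul_comm, mul_assoc, ← mul_pow, inv_mul_cancel₀ hζ, one_pow, mul_one]
  have hmax : ‖(p.reflect d).eval ((r : ℂ)⁻¹)‖ ≤ 1 := by
    refine Complex.norm_le_of_forall_mem_frontier_norm_le (U := Metric.ball (0 : ℂ) 1)
      (f := fun ζ => (p.reflect d).eval ζ) Metric.isBounded_ball ?_ ?_ ?_
    · exact (Polynomial.differentiable _).diffContOnCl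
    · intro ζ hζ
      rw [frontier_ball (0 : ℂ) one_ne_zero, mem_sphere_zero_iff_norm] at hζ
      have hζ0 : ζ ≠ 0 := by
        intro h; rw [h, norm_zero] at hζ; exact zero_ne_one hζ
      rw [hq ζ hζ0, norm_mul, norm_pow, hζ, one_pow, one_mul]
      apply hb
      rw [norm_inv, hζ, inv_one]
    · rw [closure_ball (0 : ℂ) one_ne_zero, mem_closedBall_zero_iff, norm_inv, Complex.norm_real,
        Real.norm_of_nonneg hr0.le]
      exact inv_le_one_of_one_le₀ hr1
  rw [hq _ (inv_ne_zero hrc), inv_inv, hpe, norm_mul, norm_pow, norm_inv, Complex.norm_real,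
    Real.norm_of_nonneg hr0.le] at hmax
  have he : (fun i => v i * (r : ℂ)) = z := by
    ext i
    simp only [hv]
    exact div_mul_cancel₀ _ hrc
  rw [he, inv_pow] at hmax
  have := mul_le_mul_of_nonneg_left hmax (pow_pos hr0 d).le
  rwa [← mul_assoc, mul_inv_cancel₀ (pow_pos hr0 d).ne', one_mul, mul_one] at this

end Pool.Agent.H32.VG
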