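import Mathlib
import Pool.Agent.H32.VG.Lev

/-!
# VG module LOG: logarithmic growth of `η`
-/

open MeasureTheory Set Filter Topology
open scoped ENNReal NNReal ContDiff ComplexConjugate
open Pool.Agent.H95.VG

namespace Pool.Agent.H32.VG

/-- number of elements of a finite set of reals in a bounded window, from windows of length 2 -/
theorem card_window (T : Finset ℝ) (σ L : ℝ) (hL : 0 < L) (m : ℕ) (hT : (T : Set ℝ) ⊆ Ico σ (σ + L))
    (hm : ∀ s₀ : ℝ, (T.filter fun s => |s - s₀| ≤ 1).card ≤ m) :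
    T.card ≤ (⌈L⌉₊ + 2) * m := by
  classical
  have hsub : T ⊆ (Finset.range (⌈L⌉₊ + 2)).biUnion
      fun j => T.filter fun s => |s - (σ + 2 * j)| ≤ 1 := by
    intro s hs
    obtain ⟨h1, h2⟩ := hT hs
    set t : ℝ := (s - σ) / 2 with ht
    have ht0 : 0 ≤ t := by rw [ht]; linarith
    have hst : s = σ + 2 * t := by rw [ht]; ring
    set j : ℕ := ⌊t + 1 / 2⌋₊ with hj
    have hj1 : (j : ℝ) ≤ t + 1 / 2 := Nat.floor_le (by linarith)
    have hj2 : t + 1 / 2 < j + 1 := Nat.lt_floor_add_one _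
    have hLc : L ≤ ⌈L⌉₊ := Nat.le_ceil L
    have hjK : j < ⌈L⌉₊ + 2 := by
      have : (j : ℝ) < ⌈L⌉₊ + 2 := by linarith
      exact_mod_cast this
    rw [Finset.mem_biUnion]
    refine ⟨j, Finset.mem_range.2 hjK, Finset.mem_filter.2 ⟨hs, ?_⟩⟩
    rw [abs_le, hst]
    constructor <;> linarith
  calc T.card ≤ _ := Finset.card_le_card hsub
    _ ≤ ∑ j ∈ Finset.range (⌈L⌉₊ + 2), (T.filter fun s => |s - (σ + 2 * j)| ≤ 1).card :=
        Finset.card_biUnion_le
    _ ≤ ∑ _j ∈ Finset.range (⌈L⌉₊ + 2), m := Finset.sum_le_sum fun j _ => hm _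
    _ = (⌈L⌉₊ + 2) * m := by rw [Finset.sum_const, Finset.card_range, smul_eq_mul]

theorem logGrowth (hNUL : T_NUL) (hCON : T_CON) (hLVB : T_LVB) (hFLN : T_FLN)
    (hITR : T_ITR) (hOCC : T_OCC) : T_LOG := by
  intro n X _ _ _ _ ι _ A w f I h η hG S hh E hk hfl hW hNd
  classical
  obtain ⟨L₀, m₀, N, C0⟩ := hFLN n X ι A w f I h η hG S hh E hk hfl hW hNd
  obtain ⟨L₁, hL₁, hN₁, hI⟩ := hITR n X f I η L₀ m₀ N C0
  obtain ⟨S₀, hS₀, hcon⟩ := hCON n X ι A w f I h η hG S hh E hW
  obtain ⟨c, H, hc, hH, hlv⟩ := hLVB n X ι A w f I h η hG S hh E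
  obtain ⟨hNZ, hNE⟩ := hNUL n X ι A w f I hG S hNd
  obtain ⟨B, hB⟩ := C0.up
  obtain ⟨Cw, hCw0, hCw⟩ := win_sum hW
  have hL0 : 0 < L₀ := C0.pos.1
  have hL1 : 0 < L₁ := lt_of_lt_of_le hL0 hL₁
  have hDqo : IsOpen (Dq n I) := isOpen_Dq S
  set μb : Measure (V n) := volume.restrict (Metric.ball (0 : V n) (3 / 2)) with hμb
  set μq : Measure (V n) := volume.restrict (Dq n I) with hμq
  -- occupied levels
  let Oc : ι → Set ℝ := fun a => {s | s < -S₀ ∧ ∀ᵐ y ∂μb, (fib A f I h η a s y).Nonempty}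
  have hnot : ∀ a s, s < -S₀ → s ∉ Oc a → ∀ᵐ y ∂μb, fib A f I h η a s y = ∅ := by
    intro a s hs hns
    have habs : S₀ ≤ |s| := by rw [le_abs]; right; linarith
    obtain ⟨⟨M, hM⟩, _⟩ := hcon a s habs
    by_cases hM0 : M = 0
    · filter_upwards [hM] with y hy
      rw [hM0] at hy
      exact encard_eq_zero.1 (by simpa using hy)
    · exfalso
      apply hns
      refine ⟨hs, ?_⟩
      filter_upwards [hM] with y hy
      rw [← encard_pos, hy]
      exact_mod_cast Nat.pos_of_ne_zero hM0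
  -- closed under subtraction of `L₁`
  have hcl : ∀ a, ∀ s ∈ Oc a, s - L₁ ∈ Oc a := by
    intro a s hs
    refine ⟨by linarith [hs.1], ?_⟩
    have hZ : volume {y | y ∈ Dq n I ∧ ¬ (FL f I η L₁ y).Nonempty} = 0 := by
      have h1 := C0.card L₁ hL₁
      rw [ae_restrict_iff' hDqo.measurableSet, ae_iff] at h1
      refine measure_mono_null ?_ h1
      rintro y ⟨hy1, hy2⟩ hcc
      apply hy2
      rw [← encard_pos, hcc hy1]
      exact_mod_cast hN₁
    filter_upwards [hs.2, ae_img S a hZ] with y ⟨z, hz⟩ hy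
    have hz2 := hy z hz.1.1 hz.2.1 hz.2.2.1
    have hne : (FL f I η L₁ z).Nonempty := by
      by_contra hcc
      exact hz2 ⟨hz.1, hcc⟩
    obtain ⟨z', hz'⟩ := hne
    refine ⟨z', hz'.1, ?_, ?_, ?_⟩
    · rw [hz'.2.1]; exact hz.2.1
    · rw [hz'.2.1]; exact hz.2.2.1
    · rw [hz'.2.2, hz.2.2.2]; ring
  -- window bound
  obtain ⟨m, hm⟩ : ∃ m : ℕ, ∀ a (σ : ℝ) (T : Finset ℝ), (T : Set ℝ) ⊆ Oc a ∩ Ico σ (σ + L₁) →
      T.card ≤ m := by
    set K : ℕ := ⌈1 + H⌉₊ with hK
    set m₁ : ℕ := ⌈(K + 1) * Cw / c⌉₊ with hm₁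
    refine ⟨(⌈L₁⌉₊ + 2) * m₁, fun a σ T hT => ?_⟩
    refine card_window T σ L₁ hL1 m₁ (fun s hs => (hT hs).2) fun s₀ => ?_
    have h1 := hlv a (T.filter fun s => |s - s₀| ≤ 1) (fun _ => 1) s₀
      (fun s hs => (Finset.mem_filter.1 hs).2) (fun s hs => by
        filter_upwards [(hT (Finset.mem_filter.1 hs).1).1.2] with y hy
        rw [Nat.cast_one]
        exact Order.one_le_iff_pos.2 (encard_pos.2 hy))
    have h2 : ∫⁻ z in (Dp n \ I) ∩ {z | nsq z < 1 / 4 ∧ |η z - s₀| ≤ 1 + H},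
        ENNReal.ofReal (PB A f w z) ≤ ENNReal.ofReal ((K + 1) * Cw) := by
      refine le_trans (lintegral_mono_set ?_) (hCw K s₀)
      rintro z ⟨hz, hz1, hz2⟩
      exact ⟨hz, hz1, hz2.trans (Nat.le_ceil _)⟩
    have h3 := h1.trans h2
    rw [ENNReal.ofReal_le_ofReal_iff (by positivity)] at h3
    simp only [Nat.cast_one, Finset.sum_const, nsmul_eq_mul, mul_one] at h3
    have h4 : ((T.filter fun s => |s - s₀| ≤ 1).card : ℝ) ≤ (K + 1) * Cw / c := by
      rw [le_div_iff₀ hc, mul_comm]; exact h3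
    have h5 : ((T.filter fun s => |s - s₀| ≤ 1).card : ℝ) ≤ (m₁ : ℝ) := h4.trans (Nat.le_ceil _)
    exact Nat.cast_le.1 h5
  have hocc : ∀ a, ∃ σ₀ : ℝ, ∀ s ∈ Oc a, ∃ k : ℕ, s + k * L₁ ∈ Oc a ∧ σ₀ ≤ s + k * L₁ :=
    fun a => hOCC (Oc a) S₀ L₁ m hL1 (fun s hs => hs.1) (hcl a) (hm a)
  choose σ₀ hσ using hocc
  -- main almost everywhere statement
  have hP := ae_lev S E hNE
    (fun a s y => (s < -S₀ → s ∉ Oc a → fib A f I h η a s y = ∅) ∧
      ∀ k : ℕ, s + k * L₁ ∈ Oc a → (fib A f I h η a (s + k * L₁) y).Nonempty) (by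
    intro a s
    refine Filter.Eventually.and ?_ ?_
    · by_cases h1 : s < -S₀
      · by_cases h2 : s ∈ Oc a
        · exact ae_of_all _ fun y _ h3 => absurd h2 h3
        · filter_upwards [hnot a s h1 h2] with y hy _ _
          exact hy
      · exact ae_of_all _ fun y h3 => absurd h3 h1
    · rw [ae_all_iff]
      intro k
      by_cases h2 : s + k * L₁ ∈ Oc a
      · filter_upwards [h2.2] with y hy _
        exact hy
      · exact ae_of_all _ fun y h3 => absurd h3 h2)
  have hP' := ae_restrict_of_ae_restrict_of_subset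
    (show Dq n I ⊆ Dp n \ I from fun z hz => hz.1) hP
  have hZ : volume {y | y ∈ Dq n I ∧ ¬ ∀ k : ℕ, ∀ z ∈ FL f I η (L₁ + k * L₁) y,
      ‖z‖ ≤ Real.exp (-k)} = 0 := by
    have h1 : ∀ᵐ y ∂μq, ∀ k : ℕ, ∀ z ∈ FL f I η (L₁ + k * L₁) y, ‖z‖ ≤ Real.exp (-k) := by
      rw [ae_all_iff]
      intro k
      exact hI L₁ k hL₁
    rw [hμq, ae_restrict_iff' hDqo.measurableSet, ae_iff] at h1
    refine measure_mono_null ?_ h1
    rintro y ⟨hy1, hy2⟩ hcc
    exact hy2 (hcc hy1)
  have hnl := C0.null _ hZ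
  have hn2 : (1 : ℝ) ≤ n := by
    have := S.two
    exact_mod_cast (by omega : 1 ≤ n)
  have hlogn : 0 ≤ Real.log n := Real.log_nonneg hn2
  set C : ℝ := |B| + S₀ + |H| + ∑ a, |σ₀ a| + L₁ * (1 + Real.log n) with hCdef
  have hsum0 : 0 ≤ ∑ a, |σ₀ a| := Finset.sum_nonneg fun a _ => abs_nonneg _
  have hCL : L₁ ≤ C := by
    have h1 : L₁ * 1 ≤ L₁ * (1 + Real.log n) := by gcongr; linarith
    rw [hCdef]
    linarith [abs_nonneg B, abs_nonneg H]
  have hC0 : 0 ≤ C := hL1.le.trans hCL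
  have hae : ∀ᵐ z ∂μq, |η z| ≤ C * (1 + |lu z|) := by
    filter_upwards [hP', hnl, ae_restrict_mem hDqo.measurableSet] with z hz1 hz2 hzq
    obtain ⟨a, hs, hb⟩ := A.cover (f z)
    have hb' : A.φ a (f z) ∈ Metric.ball (0 : V n) (3 / 2) :=
      Metric.ball_subset_ball (by norm_num) hb
    obtain ⟨hq1, hq2⟩ := hz1 a hs hb'
    have hHz := hH a _ (Metric.ball_subset_closedBall hb')
    rw [abs_le] at hHz
    set s := sig A f h η a z with hsdef
    have hηs : η z = s + h a (A.φ a (f z)) := by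
      simp only [hsdef, sig, FF]; ring
    have hηB : η z ≤ B := hB z hzq
    have hlu0 : 0 ≤ |lu z| := abs_nonneg _
    by_cases hcase : s < -S₀
    · have hsO : s ∈ Oc a := by
        by_contra hcc
        have h1 := hq1 hcase hcc
        have h2 := mem_fib_self A f I h η a hs hzq
        rw [← hsdef] at h2
        rw [FF] at h2
        rw [h1] at h2
        exact h2
      obtain ⟨k, hk1, hk2⟩ := hσ a s hsO
      obtain ⟨y', hy'⟩ := hq2 k hk1
      have hfy : f y' = f z := (A.φ a).injOn hy'.2.1 hs hy'.2.2.1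
      have hηy : η z = η y' - k * L₁ := by
        rw [hy'.2.2.2, hηs]; ring
      have hznorm : ‖z‖ ≤ Real.exp (1 - k) := by
        rcases Nat.eq_zero_or_pos k with hk0 | hk0
        · rw [hk0, Nat.cast_zero, sub_zero]
          have h1 := norm_sq_le z
          have h2 := hzq.2
          have h3 : ‖z‖ ≤ 1 := by nlinarith [norm_nonneg z]
          exact h3.trans (Real.one_le_exp (by norm_num))
        · obtain ⟨j, rfl⟩ : ∃ j, k = j + 1 := ⟨k - 1, by omega⟩
          have hzZ := hz2 y' hy'.1 hfy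
          have hall : ∀ k : ℕ, ∀ z ∈ FL f I η (L₁ + k * L₁) y', ‖z‖ ≤ Real.exp (-k) := by
            by_contra hcc
            exact hzZ ⟨hy'.1, hcc⟩
          have := hall j z ⟨hzq, hfy.symm, by rw [hηy]; push_cast; ring⟩
          refine this.trans (le_of_eq ?_)
          congr 1
          push_cast; ring
      have hz0 : 0 < nsq z := hzq.1.1.1
      have hzpos : 0 < ‖z‖ := by
        by_contra hcc
        have h0 : ‖z‖ = 0 := le_antisymm (not_lt.1 hcc) (norm_nonneg _)
        have := nsq_le z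
        rw [h0] at this
        norm_num at this
        linarith
      have hlog1 : Real.log ‖z‖ ≤ 1 - k := by
        rw [Real.log_le_iff_le_exp hzpos]; exact hznorm
      have hlog2 : lu z ≤ Real.log n + Real.log ‖z‖ := by
        have h1 : Real.log (nsq z) ≤ Real.log (n * ‖z‖ ^ 2) := Real.log_le_log hz0 (nsq_le z)
        rw [Real.log_mul (by positivity) (by positivity), Real.log_pow] at h1
        simp only [lu]
        push_cast at h1
        linarith
      have hkb : (k : ℝ) ≤ 1 + Real.log n + |lu z| := by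
        have := neg_abs_le (lu z)
        linarith
      have hσa : -∑ a, |σ₀ a| ≤ σ₀ a := by
        have h1 : |σ₀ a| ≤ ∑ a, |σ₀ a| :=
          Finset.single_le_sum (f := fun a => |σ₀ a|) (fun a _ => abs_nonneg _) (Finset.mem_univ a)
        linarith [neg_abs_le (σ₀ a)]
      have hkL : k * L₁ ≤ L₁ * (1 + Real.log n) + L₁ * |lu z| := by
        have := mul_le_mul_of_nonneg_right hkb hL1.le
        linarith
      have hCl : L₁ * |lu z| ≤ C * |lu z| := by gcongr
      rw [abs_le]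
      constructor
      · have : -(C * (1 + |lu z|)) = -C - C * |lu z| := by ring
        rw [this, hCdef]
        rw [hCdef] at hCl
        linarith [le_abs_self H, abs_nonneg B, hHz.1]
      · have : C * (1 + |lu z|) = C + C * |lu z| := by ring
        rw [this]
        have h1 : 0 ≤ C * |lu z| := by positivity
        have h2 : |B| ≤ C := by
          rw [hCdef]
          have h3 : 0 ≤ L₁ * (1 + Real.log n) := by positivity
          linarith [abs_nonneg H]
        linarith [le_abs_self B]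
    · rw [not_lt] at hcase
      have h1 : 0 ≤ C * |lu z| := by positivity
      have h3 : 0 ≤ L₁ * (1 + Real.log n) := by positivity
      have : C * (1 + |lu z|) = C + C * |lu z| := by ring
      rw [abs_le, this]
      constructor
      · rw [hCdef] at h1 ⊢
        linarith [le_abs_self H, abs_nonneg B, hHz.1]
      · rw [hCdef] at h1 ⊢
        linarith [le_abs_self B, abs_nonneg H]
  -- continuity
  refine ⟨C, ?_⟩
  have hηc : ContinuousOn η (Dq n I) := E.cont.mono fun z hz => hz.1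
  have hluc : ContinuousOn (lu (n := n)) (Dq n I) := by
    intro z hz
    have hz0 : nsq z ≠ 0 := (ne_of_gt hz.1.1.1)
    exact ((nsq_cont.continuousAt.log hz0).div_const 2).continuousWithinAt
  have hU : IsOpen (Dq n I ∩ (fun z => |η z| - C * (1 + |lu z|)) ⁻¹' (Ioi 0)) := by
    refine ContinuousOn.isOpen_inter_preimage ?_ hDqo isOpen_Ioi
    exact (hηc.abs).sub (continuousOn_const.mul (continuousOn_const.add hluc.abs))
  have hU0 : volume (Dq n I ∩ (fun z => |η z| - C * (1 + |lu z|)) ⁻¹' (Ioi 0)) = 0 := by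
    rw [hμq, ae_restrict_iff' hDqo.measurableSet, ae_iff] at hae
    refine measure_mono_null ?_ hae
    rintro y ⟨hy1, hy2⟩ hcc
    have h1 := hcc hy1
    rw [mem_preimage, mem_Ioi] at hy2
    linarith
  have hUe := hU.measure_eq_zero_iff volume |>.1 hU0
  intro z hz
  by_contra hcc
  rw [not_le] at hcc
  have : z ∈ Dq n I ∩ (fun z => |η z| - C * (1 + |lu z|)) ⁻¹' (Ioi 0) :=
    ⟨hz, by rw [mem_preimage, mem_Ioi]; linarith⟩
  rw [hUe] at this
  exact this

end Pool.Agent.H32.VG
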