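import Mathlib
import Pool.Agent.H95.VG.Targets1
import Pool.Agent.H95.VG.Targets2

/-!
# VG module PU: partition of unity
-/

open MeasureTheory Set Filter Topology
open scoped ENNReal NNReal ContDiff ComplexConjugate
open Pool.Agent.H95.VG

namespace Pool.Agent.H32.VG

theorem pu (hSMO : T_SMO) : T_PU := by
  intro n X _ _ _ ι _ A
  classical
  let B : ContDiffBump (0 : V n) := ⟨1, 5 / 4, one_pos, by norm_num⟩
  have hBs : ∀ y : V n, B y ≠ 0 ↔ y ∈ Metric.ball (0 : V n) (5 / 4) := by
    intro y
    have := B.support_eq
    rw [← Function.mem_support, this]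
  let b : ι → X → ℝ := fun a x => ((A.φ a).source).indicator (fun x => B (A.φ a x)) x
  have hb0 : ∀ a x, 0 ≤ b a x := fun a x => indicator_nonneg (fun x _ => B.nonneg) x
  have hK : ∀ a, IsClosed ((A.φ a).symm '' (Metric.closedBall (0 : V n) (5 / 4))) := by
    intro a
    refine IsCompact.isClosed ?_
    refine (isCompact_closedBall (0 : V n) (5 / 4)).image_of_continuousOn ?_
    refine (A.φ a).continuousOn_symm.mono ?_
    exact (Metric.closedBall_subset_closedBall (by norm_num)).trans (A.ball a)
  have hbK : ∀ a x, x ∉ (A.φ a).symm '' (Metric.closedBall (0 : V n) (5 / 4)) → b a x = 0 := by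
    intro a x hx
    by_cases hs : x ∈ (A.φ a).source
    · simp only [b]
      rw [indicator_of_mem hs]
      by_contra h
      rw [← Ne, hBs] at h
      exact hx ⟨A.φ a x, Metric.ball_subset_closedBall h, (A.φ a).left_inv hs⟩
    · exact indicator_of_notMem hs _
  have hcont : ∀ a, Continuous (b a) := by
    intro a
    rw [continuous_iff_continuousAt]
    intro x
    by_cases hs : x ∈ (A.φ a).source
    · have hev : b a =ᶠ[𝓝 x] fun x => B (A.φ a x) := by
        filter_upwards [(A.φ a).open_source.mem_nhds hs] with x' hx'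
        exact indicator_of_mem hx' (fun x => B (A.φ a x))
      refine ContinuousAt.congr ?_ hev.symm
      exact B.continuous.continuousAt.comp ((A.φ a).continuousAt hs)
    · have hx : x ∉ (A.φ a).symm '' (Metric.closedBall (0 : V n) (5 / 4)) := by
        rintro ⟨y, hy, rfl⟩
        exact hs ((A.φ a).map_target
          (A.ball a (Metric.closedBall_subset_closedBall (by norm_num) hy)))
      have hev : b a =ᶠ[𝓝 x] fun _ => (0 : ℝ) := by
        filter_upwards [(hK a).isOpen_compl.mem_nhds hx] with x' hx'
        exact hbK a x' hx'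
      exact ContinuousAt.congr continuousAt_const hev.symm
  have hpos : ∀ x, 0 < ∑ a, b a x := by
    intro x
    obtain ⟨a, hs, hb⟩ := A.cover x
    refine Finset.sum_pos' (fun a _ => hb0 a x) ⟨a, Finset.mem_univ _, ?_⟩
    simp only [b]
    rw [indicator_of_mem hs]
    exact B.pos_of_mem_ball (Metric.ball_subset_ball (by simp [B]; norm_num) hb)
  have hsm : ∀ a c, ContDiffOn ℝ ∞ (fun y => b a ((A.φ c).symm y)) (A.φ c).target := by
    intro a c y hy
    refine ContDiffAt.contDiffWithinAt ?_
    by_cases hs : (A.φ c).symm y ∈ (A.φ a).source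
    · have hmem : y ∈ ((A.φ c).symm.trans (A.φ a)).source := by
        rw [OpenPartialHomeomorph.trans_source, OpenPartialHomeomorph.symm_source]
        exact ⟨hy, hs⟩
      have hop := ((A.φ c).symm.trans (A.φ a)).open_source
      have hcd := (hSMO n (V n) _ _ hop (A.hol c a)).2.1
      have hcda : ContDiffAt ℝ ∞ (fun y => A.φ a ((A.φ c).symm y)) y :=
        hcd.contDiffAt (hop.mem_nhds hmem)
      have hev : (fun y => b a ((A.φ c).symm y)) =ᶠ[𝓝 y]
          fun y => B (A.φ a ((A.φ c).symm y)) := by
        filter_upwards [hop.mem_nhds hmem] with y' hy'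
        rw [OpenPartialHomeomorph.trans_source, OpenPartialHomeomorph.symm_source] at hy'
        exact indicator_of_mem (show (A.φ c).symm y' ∈ (A.φ a).source from hy'.2) _
      refine ContDiffAt.congr_of_eventuallyEq ?_ hev
      exact B.contDiff.contDiffAt.comp y hcda
    · have hx : (A.φ c).symm y ∉ (A.φ a).symm '' (Metric.closedBall (0 : V n) (5 / 4)) := by
        rintro ⟨y', hy', he⟩
        apply hs
        rw [← he]
        exact (A.φ a).map_target
          (A.ball a (Metric.closedBall_subset_closedBall (by norm_num) hy'))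
      have hev : (fun y => b a ((A.φ c).symm y)) =ᶠ[𝓝 y] fun _ => (0 : ℝ) := by
        have hc : ContinuousAt (A.φ c).symm y := (A.φ c).continuousAt_symm hy
        filter_upwards [hc.preimage_mem_nhds ((hK a).isOpen_compl.mem_nhds hx)] with x' hx'
        exact hbK a _ hx'
      exact contDiffAt_const.congr_of_eventuallyEq hev
  refine ⟨fun a x => b a x / ∑ c, b c x, ?_, ?_, ?_, ?_, ?_, ?_⟩
  · intro a
    exact (hcont a).div (continuous_finsetSum _ fun c _ => hcont c) fun x => (hpos x).ne'
  · intro a x
    exact div_nonneg (hb0 a x) (hpos x).le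
  · intro x
    rw [← Finset.sum_div]
    exact div_self (hpos x).ne'
  · intro a x hx
    have hx' : b a x ≠ 0 := fun h => hx (by simp only [h, zero_div])
    by_cases hs : x ∈ (A.φ a).source
    · refine ⟨hs, ?_⟩
      simp only [b] at hx'
      rw [indicator_of_mem hs] at hx'
      exact Metric.ball_subset_closedBall ((hBs _).1 hx')
    · exact absurd (indicator_of_notMem hs _) hx'
  · intro a x hs hx
    refine div_pos ?_ (hpos x)
    simp only [b]
    rw [indicator_of_mem hs]
    exact B.pos_of_mem_ball (Metric.closedBall_subset_ball (by simp [B]; norm_num) hx)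
  · intro a c
    refine (hsm a c).div (ContDiffOn.sum fun d _ => hsm d c) fun y _ => (hpos _).ne'

end Pool.Agent.H32.VG
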